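import Pool.Agent.Lib.ESC.Blue

/-! The mean value of `φ m / m` on an arithmetic progression. -/

open Finset
open scoped Nat ArithmeticFunction.Moebius

namespace Pool.Agent.Lib.ESC

namespace AP

lemma abs_mu (d : ℕ) : |(μ d : ℝ)| ≤ 1 := by
  exact_mod_cast (ArithmeticFunction.abs_moebius_le_one (n := d))

lemma sum_sq (y : ℕ) : ∑ d ∈ Ioc 1 y, ((d : ℝ) ^ 2)⁻¹ ≤ 3 / 4 := by
  rcases Nat.lt_or_ge y 2 with h | h
  · rw [Finset.Ioc_eq_empty (by omega), Finset.sum_empty]; norm_num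
  · have h1 := sum_Ioc_inv_sq_le_sub (α := ℝ) (k := 2) two_ne_zero h
    rw [← Finset.sum_Ioc_consecutive _ (show 1 ≤ 2 by norm_num) h]
    have h2 : (0 : ℝ) ≤ (y : ℝ)⁻¹ := by positivity
    have h3 : ∑ d ∈ Ioc (1 : ℕ) 2, ((d : ℝ) ^ 2)⁻¹ = 1 / 4 := by
      rw [show Ioc 1 2 = ({2} : Finset ℕ) by decide, Finset.sum_singleton]; norm_num
    rw [h3]
    norm_num at h1 ⊢
    linarith

lemma W_ge (y β : ℕ) (hy : 0 < y) : 1 / 4 ≤ W y β := by
  have e : Icc 1 y = insert 1 (Ioc 1 y) := by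
    ext d; simp only [Finset.mem_Icc, Finset.mem_insert, Finset.mem_Ioc]; omega
  rw [W, Finset.sum_filter, e, Finset.sum_insert (by simp), if_pos (Nat.coprime_one_left β)]
  have h1 : ∑ d ∈ Ioc 1 y, -((d : ℝ) ^ 2)⁻¹
      ≤ ∑ d ∈ Ioc 1 y, if d.Coprime β then (μ d : ℝ) / (d : ℝ) ^ 2 else 0 := by
    refine Finset.sum_le_sum fun d _ => ?_
    have h0 : (0 : ℝ) ≤ ((d : ℝ) ^ 2)⁻¹ := by positivity
    split_ifs
    · have := mul_le_mul_of_nonneg_right (abs_le.1 (abs_mu d)).1 h0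
      rw [div_eq_mul_inv]
      linarith
    · linarith
  rw [Finset.sum_neg_distrib] at h1
  have h2 := sum_sq y
  simp only [ArithmeticFunction.moebius_apply_one, Int.cast_one, Nat.cast_one, one_pow, div_one]
  linarith

lemma f_eq {m : ℕ} (hm : 0 < m) : f m = ∑ d ∈ m.divisors, (μ d : ℝ) / d := by
  have h := (ArithmeticFunction.sum_eq_iff_sum_mul_moebius_eq (R := ℝ)
    (f := fun n => (φ n : ℝ)) (g := fun n => (n : ℝ))).1
    (fun n _ => by exact_mod_cast Nat.sum_totient n) m hm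
  rw [Nat.sum_divisorsAntidiagonal (fun d e => (μ d : ℝ) * (e : ℝ))] at h
  have hm' : (m : ℝ) ≠ 0 := by exact_mod_cast hm.ne'
  rw [f, ← h, Finset.sum_div]
  refine Finset.sum_congr rfl fun d hd => ?_
  have hd0 : (d : ℝ) ≠ 0 := by exact_mod_cast (Nat.pos_of_mem_divisors hd).ne'
  rw [Nat.cast_div (Nat.dvd_of_mem_divisors hd) hd0]
  field_simp

lemma f_split {m : ℕ} (hm : 0 < m) (y : ℕ) :
    |f m - ∑ d ∈ Icc 1 y, if d ∣ m then (μ d : ℝ) / d else 0| ≤ tl y m := by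
  have e : (Icc 1 y).filter (fun d => d ∣ m) = m.divisors.filter fun d => ¬ y < d := by
    ext d
    simp only [Finset.mem_filter, Finset.mem_Icc, Nat.mem_divisors, not_lt]
    constructor
    · rintro ⟨⟨_, h2⟩, h3⟩
      exact ⟨⟨h3, hm.ne'⟩, h2⟩
    · rintro ⟨⟨h1, _⟩, h3⟩
      exact ⟨⟨Nat.pos_of_dvd_of_pos h1 hm, h3⟩, h1⟩
  rw [← Finset.sum_filter, e, f_eq hm,
    ← Finset.sum_filter_add_sum_filter_not m.divisors (fun d => y < d), add_sub_cancel_right, tl]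
  refine (Finset.abs_sum_le_sum_abs _ _).trans (Finset.sum_le_sum fun d _ => ?_)
  rw [abs_div, Nat.abs_cast]
  exact div_le_div_of_nonneg_right (abs_mu d) (Nat.cast_nonneg d)

lemma cnt_zero {α β d : ℕ} (h : α.Coprime β) (hd : ¬ d.Coprime β) (j : ℕ) : ¬ d ∣ α + β * j := by
  intro hj
  have h1 : Nat.gcd d β ∣ α :=
    (Nat.dvd_add_left ((Nat.gcd_dvd_right d β).mul_right j)).1 ((Nat.gcd_dvd_left d β).trans hj)
  exact hd (Nat.eq_one_of_dvd_coprimes h h1 (Nat.gcd_dvd_right d β))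

lemma cnt_cop (α : ℕ) {β d : ℕ} (hd0 : 0 < d) (hd : d.Coprime β) (J : ℕ) :
    |(((range J).filter fun j => d ∣ α + β * j).card : ℝ) - (J : ℝ) / d| ≤ 1 := by
  have : NeZero d := ⟨hd0.ne'⟩
  obtain ⟨u, hu⟩ := (ZMod.isUnit_iff_coprime β d).2 hd.symm
  have key : ∀ j : ℕ, d ∣ α + β * j ↔ j ≡ (-(α : ZMod d) * (u⁻¹ : (ZMod d)ˣ)).val [MOD d] := by
    intro j
    rw [← ZMod.natCast_eq_zero_iff, ← ZMod.natCast_eq_natCast_iff, ZMod.natCast_zmod_val,
      Units.eq_mul_inv_iff_mul_eq, hu]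
    push_cast
    constructor
    · intro h; linear_combination h
    · intro h; linear_combination h
  simp only [key]
  rw [← Nat.count_eq_card_filter_range, Nat.count_modEq_card J hd0]
  have h1 : ((J / d : ℕ) : ℝ) ≤ (J : ℝ) / d := Nat.cast_div_le
  have h2 : (J : ℝ) / d < ((J / d : ℕ) : ℝ) + 1 := by
    rw [← Nat.floor_div_eq_div (K := ℝ)]
    exact Nat.lt_floor_add_one _
  rw [abs_le]
  split_ifs <;> push_cast <;> constructor <;> linarith

lemma term_le {α β d : ℕ} (h : α.Coprime β) (hd0 : 0 < d) (J : ℕ) :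
    |(∑ j ∈ range J, if d ∣ α + β * j then (μ d : ℝ) / d else 0)
      - J * if d.Coprime β then (μ d : ℝ) / (d : ℝ) ^ 2 else 0| ≤ 1 := by
  by_cases hd : d.Coprime β
  · have hd1 : (1 : ℝ) ≤ d := by exact_mod_cast hd0
    rw [if_pos hd, ← Finset.sum_filter, Finset.sum_const, nsmul_eq_mul]
    have e : (((range J).filter fun j => d ∣ α + β * j).card : ℝ) * ((μ d : ℝ) / d)
        - J * ((μ d : ℝ) / (d : ℝ) ^ 2)
        = ((((range J).filter fun j => d ∣ α + β * j).card : ℝ) - (J : ℝ) / d) * ((μ d : ℝ) / d) := by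
      ring
    rw [e, abs_mul, abs_div, Nat.abs_cast]
    exact mul_le_one₀ (cnt_cop α hd0 hd J) (by positivity)
      ((div_le_one (by linarith)).2 ((abs_mu d).trans hd1))
  · simp [hd, cnt_zero h hd]

end AP

open AP in
theorem st_AP : St_AP := by
  refine ⟨W_ge, fun α β y J hα h => ?_⟩
  have h1 : |∑ j ∈ range J, (f (α + β * j)
      - ∑ d ∈ Icc 1 y, if d ∣ α + β * j then (μ d : ℝ) / d else 0)|
      ≤ ∑ j ∈ range J, tl y (α + β * j) :=
    (Finset.abs_sum_le_sum_abs _ _).trans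
      (Finset.sum_le_sum fun j _ => f_split (Nat.add_pos_left hα _) y)
  have h2 : |∑ d ∈ Icc 1 y, ((∑ j ∈ range J, if d ∣ α + β * j then (μ d : ℝ) / d else 0)
      - J * if d.Coprime β then (μ d : ℝ) / (d : ℝ) ^ 2 else 0)| ≤ y := by
    refine (Finset.abs_sum_le_sum_abs _ _).trans ?_
    have := Finset.sum_le_card_nsmul (Icc 1 y) _ (1 : ℝ)
      fun d hd => term_le h (Finset.mem_Icc.1 hd).1 J
    simpa using this
  rw [Finset.sum_sub_distrib, Finset.sum_comm] at h1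
  rw [Finset.sum_sub_distrib, ← Finset.mul_sum, ← Finset.sum_filter] at h2
  rw [W]
  rw [abs_le] at h1 h2 ⊢
  constructor <;> linarith [h1.1, h1.2, h2.1, h2.2]

end Pool.Agent.Lib.ESC
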