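import Pool.Agent.Lib.ESC.Blue

/-! Averaging over two residue classes modulo the square of a prime. -/

open Finset Filter
open scoped Nat

set_option linter.unusedVariables false

noncomputable section

namespace Pool.Agent.Lib.ESC

namespace AVG

theorem f_nonneg (m : ℕ) : 0 ≤ f m := by unfold f; positivity

theorem f_le_one (m : ℕ) : f m ≤ 1 := by
  unfold f
  apply div_le_one_of_le₀
  · exact_mod_cast Nat.totient_le m
  · positivity

theorem tl_nonneg (y m : ℕ) : 0 ≤ tl y m := by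
  unfold tl; exact sum_nonneg fun d _ => by positivity

theorem tl_le_mul (y p m : ℕ) (h : p * m ≠ 0) : tl y m ≤ tl y (p * m) := by
  unfold tl
  apply sum_le_sum_of_subset_of_nonneg
  · exact filter_subset_filter _ (Nat.divisors_subset_of_dvd h (Dvd.intro_left p rfl))
  · intro d _ _; positivity

theorem f_prime_mul (p m : ℕ) (hp : p.Prime) (h : ¬ p ∣ m) : f (p * m) = (1 - 1 / p) * f m := by
  have hm : m ≠ 0 := by rintro rfl; exact h (dvd_zero p)
  have hp0 : (p : ℝ) ≠ 0 := by exact_mod_cast hp.ne_zero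
  have hm0 : (m : ℝ) ≠ 0 := by exact_mod_cast hm
  unfold f
  rw [Nat.totient_mul_of_prime_of_not_dvd hp h, Nat.cast_mul, Nat.cast_mul,
    Nat.cast_sub hp.one_le]
  field_simp
  simp

theorem W_sq (y b p : ℕ) : W y (b * p) = W y (b * p ^ 2) := by
  unfold W
  apply sum_congr _ fun _ _ => rfl
  apply filter_congr
  intro d _
  simp [Nat.coprime_mul_iff_right]

theorem class_tail (g : ℕ → ℝ) (hg : ∀ k, 0 ≤ g k) (k1 c n J : ℕ) (h1 : k1 ≤ c)
    (h2 : c < k1 + n) : ∑ j ∈ range J, g (c + n * j) ≤ ∑ k ∈ Ico k1 (k1 + n * J), g k := by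
  have hn : 0 < n := by omega
  have hinj : Set.InjOn (fun j => c + n * j) (range J : Set ℕ) := by
    intro i _ j _ hij
    have : n * i = n * j := by simpa using hij
    exact Nat.eq_of_mul_eq_mul_left hn this
  rw [← sum_image (f := g) hinj]
  apply sum_le_sum_of_subset_of_nonneg
  · intro k hk
    obtain ⟨j, hj, rfl⟩ := mem_image.1 hk
    have hj' : j + 1 ≤ J := mem_range.1 hj
    have := Nat.mul_le_mul_left n hj'
    rw [mem_Ico]
    constructor
    · omega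
    · nlinarith
  · intro k _ _; exact hg k

theorem mem_block (k1 c n J j : ℕ) (h1 : k1 ≤ c) (h2 : c < k1 + n) (hj : j < J) :
    c + n * j ∈ Ico k1 (k1 + n * J) := by
  have hj' : j + 1 ≤ J := hj
  have := Nat.mul_le_mul_left n hj'
  rw [mem_Ico]
  constructor
  · omega
  · nlinarith

theorem exists_class (k1 n r : ℕ) (hn : 0 < n) : ∃ c, k1 ≤ c ∧ c < k1 + n ∧ c ≡ r [MOD n] := by
  refine ⟨k1 + (r + (n - 1) * k1) % n, by omega, ?_, ?_⟩
  · have := Nat.mod_lt (r + (n - 1) * k1) hn; omega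
  · have h1 : k1 + (r + (n - 1) * k1) % n ≡ k1 + (r + (n - 1) * k1) [MOD n] :=
      Nat.ModEq.add_left _ (Nat.mod_modEq _ _)
    have h2 : k1 + (r + (n - 1) * k1) = r + n * k1 := by
      obtain ⟨m, rfl⟩ : ∃ m, n = m + 1 := ⟨n - 1, by omega⟩
      simp; ring
    rw [h2] at h1
    exact h1.trans (by simp [Nat.ModEq])

theorem comb (V : Finset ℕ) (θ w : ℕ → ℝ) (F T : ℕ → ℕ → ℝ) (J : ℕ) (ε y τ : ℝ)
    (hθ : ∀ v ∈ V, |θ v| ≤ 1) (hF : ∀ j < J, |∑ v ∈ V, θ v * F v j| ≤ ε)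
    (hw : ∀ v ∈ V, |∑ j ∈ range J, F v j - J * w v| ≤ y + ∑ j ∈ range J, T v j)
    (hT : ∑ v ∈ V, ∑ j ∈ range J, T v j ≤ τ) :
    |∑ v ∈ V, θ v * (J * w v)| ≤ J * ε + V.card * y + τ := by
  have h1 : |∑ j ∈ range J, ∑ v ∈ V, θ v * F v j| ≤ J * ε := by
    refine (abs_sum_le_sum_abs _ _).trans ?_
    refine (sum_le_sum fun j hj => hF j (mem_range.1 hj)).trans ?_
    simp
  have h2 : |∑ v ∈ V, θ v * (∑ j ∈ range J, F v j - J * w v)| ≤ V.card * y + τ := by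
    refine (abs_sum_le_sum_abs _ _).trans ?_
    have : ∀ v ∈ V, |θ v * (∑ j ∈ range J, F v j - J * w v)| ≤ y + ∑ j ∈ range J, T v j := by
      intro v hv
      rw [abs_mul]
      calc _ ≤ 1 * (y + ∑ j ∈ range J, T v j) :=
            mul_le_mul (hθ v hv) (hw v hv) (abs_nonneg _) zero_le_one
        _ = _ := one_mul _
    refine (sum_le_sum this).trans ?_
    rw [sum_add_distrib, sum_const, nsmul_eq_mul]
    linarith
  have h3 : ∑ v ∈ V, θ v * (J * w v) = ∑ j ∈ range J, ∑ v ∈ V, θ v * F v j -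
      ∑ v ∈ V, θ v * (∑ j ∈ range J, F v j - J * w v) := by
    rw [sum_comm, ← sum_sub_distrib]
    refine sum_congr rfl fun v _ => ?_
    rw [← mul_sum]; ring
  rw [h3]
  refine (abs_sub _ _).trans ?_
  linarith

theorem step1 (D H k1 k : ℕ) (θ : ℕ → ℝ) (hD : 1000 ≤ D) (hH : H ≤ 4 * D ^ 10)
    (hk1 : D ^ 14 ≤ k1) (hk : k ∈ Ico k1 (k1 + H)) (hθ : ∀ v ∈ D.divisors, |θ v| ≤ 1)
    (h : |∑ v ∈ D.divisors, θ v * v * φ (D / v * k + 1)| ≤ 4 * (D : ℝ) ^ 2) :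
    |∑ v ∈ D.divisors, θ v * f (D / v * k + 1)| ≤ 5 / (D : ℝ) ^ 3 := by
  obtain ⟨hk2, hk3⟩ := mem_Ico.1 hk
  obtain ⟨e, rfl⟩ := Nat.exists_eq_add_of_le hk2
  have he : e + 1 ≤ 4 * D ^ 10 := by omega
  have hD' : (1000 : ℝ) ≤ D := by exact_mod_cast hD
  have hD0 : (0 : ℝ) < D := by linarith
  have hk1' : (D : ℝ) ^ 14 ≤ k1 := by exact_mod_cast hk1
  have he' : (e : ℝ) + 1 ≤ 4 * (D : ℝ) ^ 10 := by exact_mod_cast he
  have key : ∀ v ∈ D.divisors, θ v * v * φ (D / v * (k1 + e) + 1) =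
      (D * k1) * (θ v * f (D / v * (k1 + e) + 1)) +
        (D * e + v) * (θ v * f (D / v * (k1 + e) + 1)) := by
    intro v hv
    obtain ⟨w, hw⟩ := Nat.dvd_of_mem_divisors hv
    have hv0 : 0 < v := Nat.pos_of_mem_divisors hv
    have hdiv : D / v = w := by rw [hw]; exact Nat.mul_div_cancel_left w hv0
    have hw' : (D : ℝ) = v * w := by exact_mod_cast hw
    rw [hdiv]
    unfold f
    have : ((w * (k1 + e) + 1 : ℕ) : ℝ) ≠ 0 := by positivity
    field_simp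
    rw [hw']; push_cast; ring
  rw [sum_congr rfl key, sum_add_distrib, ← mul_sum] at h
  have h2 : |∑ v ∈ D.divisors, ((D : ℝ) * e + v) * (θ v * f (D / v * (k1 + e) + 1))| ≤
      4 * (D : ℝ) ^ 12 := by
    refine (abs_sum_le_sum_abs _ _).trans ?_
    have : ∀ v ∈ D.divisors, |((D : ℝ) * e + v) * (θ v * f (D / v * (k1 + e) + 1))| ≤
        4 * (D : ℝ) ^ 11 := by
      intro v hv
      have hv1 : (v : ℝ) ≤ D := by exact_mod_cast Nat.divisor_le hv
      have h3 : |θ v * f (D / v * (k1 + e) + 1)| ≤ 1 := by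
        rw [abs_mul, abs_of_nonneg (f_nonneg _)]
        exact mul_le_one₀ (hθ v hv) (f_nonneg _) (f_le_one _)
      have h4 : (0 : ℝ) ≤ D * e + v := by positivity
      rw [abs_mul, abs_of_nonneg h4]
      calc _ ≤ ((D : ℝ) * e + v) * 1 := mul_le_mul_of_nonneg_left h3 h4
        _ ≤ D * (e + 1) := by linarith
        _ ≤ D * (4 * (D : ℝ) ^ 10) := mul_le_mul_of_nonneg_left he' hD0.le
        _ = _ := by ring
    refine (sum_le_sum this).trans ?_
    rw [sum_const, nsmul_eq_mul]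
    have hc : (D.divisors.card : ℝ) ≤ D := by exact_mod_cast Nat.card_divisors_le_self D
    calc _ ≤ (D : ℝ) * (4 * (D : ℝ) ^ 11) := mul_le_mul_of_nonneg_right hc (by positivity)
      _ = _ := by ring
  set S := ∑ v ∈ D.divisors, θ v * f (D / v * (k1 + e) + 1)
  set R := ∑ v ∈ D.divisors, ((D : ℝ) * e + v) * (θ v * f (D / v * (k1 + e) + 1))
  have h5 : |(D : ℝ) * k1 * S| ≤ 4 * (D : ℝ) ^ 2 + 4 * (D : ℝ) ^ 12 := by
    have : (D : ℝ) * k1 * S = ((D : ℝ) * k1 * S + R) - R := by ring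
    rw [this]
    exact (abs_sub _ _).trans (by linarith)
  have h6 : 4 * (D : ℝ) ^ 2 ≤ (D : ℝ) ^ 12 := by
    have : (4 : ℝ) ≤ (D : ℝ) ^ 10 := by
      calc (4 : ℝ) ≤ D := by linarith
        _ ≤ (D : ℝ) ^ 10 := le_self_pow₀ (by linarith) (by norm_num)
    calc 4 * (D : ℝ) ^ 2 ≤ (D : ℝ) ^ 10 * (D : ℝ) ^ 2 :=
          mul_le_mul_of_nonneg_right this (by positivity)
      _ = _ := by ring
  rw [abs_mul, abs_of_nonneg (by positivity)] at h5
  rw [le_div_iff₀ (by positivity)]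
  have h7 : (D : ℝ) ^ 15 * |S| ≤ D * k1 * |S| := by
    apply mul_le_mul_of_nonneg_right _ (abs_nonneg _)
    calc (D : ℝ) ^ 15 = D * (D : ℝ) ^ 14 := by ring
      _ ≤ _ := mul_le_mul_of_nonneg_left hk1' hD0.le
  have h8 : (D : ℝ) ^ 12 * (|S| * (D : ℝ) ^ 3) ≤ (D : ℝ) ^ 12 * 5 := by
    calc _ = (D : ℝ) ^ 15 * |S| := by ring
      _ ≤ _ := by linarith
  exact le_of_mul_le_mul_left h8 (by positivity)

theorem cop (w c p : ℕ) (hp : p.Prime) (h : ¬ p ∣ w * c + 1) : (w * c + 1).Coprime (w * p ^ 2) := by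
  rw [Nat.coprime_mul_iff_right]
  refine ⟨by simp, ?_⟩
  exact Nat.Coprime.pow_right _ ((Nat.coprime_comm.1 ((Nat.Prime.coprime_iff_not_dvd hp).2 h)))

end AVG

open AVG

theorem st_AVG (hA : St_AP) : St_AVG := by
  intro D p k1 v0 η hD hp hDp hp2 hk1 hv0 hη hmax hsmall htail
  obtain ⟨hW, hAP⟩ := hA
  have hD' : (1000 : ℝ) ≤ D := by exact_mod_cast hD
  have hD0 : (0 : ℝ) < D := by linarith
  have hp' : (p : ℝ) ≤ 2 * D := by exact_mod_cast hp2
  have hp0 : (0 : ℝ) < p := by exact_mod_cast hp.pos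
  have hv00 : (0 : ℝ) < v0 := by exact_mod_cast Nat.pos_of_mem_divisors hv0
  set M := |η v0| / v0 with hM
  have hM0 : 0 < M := div_pos (abs_pos.2 hη) hv00
  set θ : ℕ → ℝ := fun v => η v / (v * M) with hθdef
  have hθ : ∀ v ∈ D.divisors, |θ v| ≤ 1 := by
    intro v hv
    have hv' : (0 : ℝ) < v := by exact_mod_cast Nat.pos_of_mem_divisors hv
    have h1 := hmax v hv
    rw [div_le_iff₀ hv'] at h1
    simp only [hθdef]
    rw [abs_div, abs_of_pos (mul_pos hv' hM0), div_le_one (mul_pos hv' hM0)]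
    linarith
  have hθ0 : |θ v0| = 1 := by
    simp only [hθdef]
    rw [abs_div, abs_of_pos (mul_pos hv00 hM0), hM]
    have := abs_pos.2 hη
    field_simp
  have hH : p ^ 2 * D ^ 8 ≤ 4 * D ^ 10 := by
    calc p ^ 2 * D ^ 8 ≤ (2 * D) ^ 2 * D ^ 8 := by gcongr
      _ = _ := by ring
  have hs1 : ∀ k ∈ Ico k1 (k1 + p ^ 2 * D ^ 8),
      |∑ v ∈ D.divisors, θ v * f (D / v * k + 1)| ≤ 5 / (D : ℝ) ^ 3 := by
    intro k hk
    refine step1 D _ k1 k θ hD hH hk1 hk hθ ?_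
    have h1 := hsmall k hk
    have h2 : ∑ v ∈ D.divisors, θ v * v * φ (D / v * k + 1) =
        (∑ v ∈ D.divisors, η v * φ (D / v * k + 1)) / M := by
      rw [sum_div]
      refine sum_congr rfl fun v hv => ?_
      have hv' : (0 : ℝ) < v := by exact_mod_cast Nat.pos_of_mem_divisors hv
      simp only [hθdef]
      field_simp
    rw [h2, abs_div, abs_of_pos hM0, div_le_iff₀ hM0]
    exact h1
  have hp2pos : 0 < p ^ 2 := pow_pos hp.pos 2
  have main : ∀ (c : ℕ) (w : ℕ → ℝ), k1 ≤ c → c < k1 + p ^ 2 →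
      (∀ v ∈ D.divisors, |∑ j ∈ range (D ^ 8), f (D / v * (c + p ^ 2 * j) + 1) -
        (D ^ 8 : ℕ) * w v| ≤ ((D ^ 5 : ℕ) : ℝ) +
          ∑ j ∈ range (D ^ 8), tl (D ^ 5) (D / v * (c + p ^ 2 * j) + 1)) →
      |∑ v ∈ D.divisors, θ v * ((D ^ 8 : ℕ) * w v)| ≤ 30 * (D : ℝ) ^ 6 := by
    intro c w h1 h2 h3
    have h4 := comb D.divisors θ w (fun v j => f (D / v * (c + p ^ 2 * j) + 1))
      (fun v j => tl (D ^ 5) (D / v * (c + p ^ 2 * j) + 1)) (D ^ 8) (5 / (D : ℝ) ^ 3)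
      ((D ^ 5 : ℕ) : ℝ) (6 * (p : ℝ) ^ 2 * (D : ℝ) ^ 4) hθ
      (fun j hj => hs1 _ (mem_block k1 c _ _ j h1 h2 hj)) h3
      ((sum_le_sum fun v _ => class_tail (fun k => tl (D ^ 5) (D / v * k + 1))
        (fun k => tl_nonneg _ _) k1 c _ _ h1 h2).trans htail)
    refine h4.trans ?_
    have hc : (D.divisors.card : ℝ) ≤ D := by exact_mod_cast Nat.card_divisors_le_self D
    have e1 : ((D ^ 8 : ℕ) : ℝ) * (5 / (D : ℝ) ^ 3) ≤ 5 * (D : ℝ) ^ 6 := by
      have : ((D ^ 8 : ℕ) : ℝ) * (5 / (D : ℝ) ^ 3) = 5 * (D : ℝ) ^ 5 := by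
        push_cast; field_simp
      rw [this]
      have : (D : ℝ) ^ 5 ≤ (D : ℝ) ^ 6 := pow_le_pow_right₀ (by linarith) (by norm_num)
      linarith
    have e2 : (D.divisors.card : ℝ) * ((D ^ 5 : ℕ) : ℝ) ≤ (D : ℝ) ^ 6 := by
      push_cast
      calc _ ≤ (D : ℝ) * (D : ℝ) ^ 5 := mul_le_mul_of_nonneg_right hc (by positivity)
        _ = _ := by ring
    have e3 : 6 * (p : ℝ) ^ 2 * (D : ℝ) ^ 4 ≤ 24 * (D : ℝ) ^ 6 := by
      calc _ ≤ 6 * (2 * (D : ℝ)) ^ 2 * (D : ℝ) ^ 4 := by gcongr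
        _ = _ := by ring
    linarith
  have hform : ∀ v c j : ℕ, D / v * (c + p ^ 2 * j) + 1 =
      (D / v * c + 1) + (D / v * p ^ 2) * j := by intro v c j; ring
  have good : ∀ v c : ℕ, ¬ p ∣ D / v * c + 1 →
      |∑ j ∈ range (D ^ 8), f (D / v * (c + p ^ 2 * j) + 1) -
        (D ^ 8 : ℕ) * W (D ^ 5) (D / v * p ^ 2)| ≤ ((D ^ 5 : ℕ) : ℝ) +
          ∑ j ∈ range (D ^ 8), tl (D ^ 5) (D / v * (c + p ^ 2 * j) + 1) := by
    intro v c h
    simp only [hform]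
    exact hAP _ _ _ _ (by omega) (cop _ _ _ hp h)
  obtain ⟨cB, hB1, hB2, hB3⟩ := exists_class k1 (p ^ 2) 0 hp2pos
  have hB := main cB (fun v => W (D ^ 5) (D / v * p ^ 2)) hB1 hB2 (fun v _ => good v cB (by
    intro h
    have h1 : p ∣ cB := (dvd_pow_self p two_ne_zero).trans ((Nat.modEq_zero_iff_dvd).1 hB3)
    have h2 : p ∣ 1 := (Nat.dvd_add_right (h1.mul_left _)).1 h
    exact hp.one_lt.ne' (Nat.dvd_one.1 h2)))
  have hw0 : 0 < D / v0 := Nat.div_pos (Nat.divisor_le hv0) (Nat.pos_of_mem_divisors hv0)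
  have hw1 : D / v0 < p := lt_of_le_of_lt (Nat.div_le_self _ _) hDp
  have hcop : (D / v0).Coprime (p ^ 2) :=
    Nat.Coprime.pow_right _ (Nat.coprime_comm.1 ((Nat.Prime.coprime_iff_not_dvd hp).2
      (Nat.not_dvd_of_pos_of_lt hw0 hw1)))
  obtain ⟨r, -, hr⟩ := Nat.exists_mul_mod_eq_of_coprime (p - 1) hcop hp2pos.ne'
  obtain ⟨cA, hA1, hA2, hA3⟩ := exists_class k1 (p ^ 2) r hp2pos
  have hA4 : D / v0 * cA + 1 ≡ p [MOD p ^ 2] := by
    have h1 : D / v0 * cA ≡ p - 1 [MOD p ^ 2] := (hA3.mul_left _).trans hr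
    have h2 := h1.add_right 1
    rwa [Nat.sub_add_cancel hp.one_le] at h2
  obtain ⟨s, hs⟩ : ∃ s, D / v0 * cA + 1 = p * (1 + p * s) := by
    refine ⟨(D / v0 * cA + 1) / p ^ 2, ?_⟩
    have h1 := Nat.mod_add_div (D / v0 * cA + 1) (p ^ 2)
    have h2 : p % p ^ 2 = p := Nat.mod_eq_of_lt (by nlinarith [hp.two_le])
    rw [hA4, h2] at h1
    rw [mul_add, mul_one, ← mul_assoc, ← sq, h1]
  have hA := main cA (fun v => if v = v0 then (1 - 1 / (p : ℝ)) * W (D ^ 5) (D / v * p ^ 2)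
      else W (D ^ 5) (D / v * p ^ 2)) hA1 hA2 (by
    intro v hv
    by_cases hvv : v = v0
    · subst hvv
      simp only [if_true]
      have hf : ∀ j, D / v * (cA + p ^ 2 * j) + 1 = p * ((1 + p * s) + (D / v * p) * j) := by
        intro j; rw [hform, hs]; ring
      have hnd : ∀ j, ¬ p ∣ (1 + p * s) + (D / v * p) * j := by
        intro j h
        have h0 : 1 + p * s + D / v * p * j = p * (s + D / v * j) + 1 := by ring
        rw [h0] at h
        exact hp.one_lt.ne' (Nat.dvd_one.1 ((Nat.dvd_add_right (dvd_mul_right _ _)).1 h))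
      have hc : (1 + p * s).Coprime (D / v * p) := by
        rw [Nat.coprime_mul_iff_right]
        refine ⟨?_, by simp⟩
        have h1 : (D / v * cA + 1).Coprime (D / v) := by simp
        rw [hs] at h1
        exact Nat.Coprime.coprime_mul_left h1
      have h1 := hAP (1 + p * s) (D / v * p) (D ^ 5) (D ^ 8) (by omega) hc
      simp only [hf]
      rw [sum_congr rfl fun j _ => f_prime_mul p _ hp (hnd j), ← mul_sum, ← W_sq]
      have h2 : ∑ j ∈ range (D ^ 8), tl (D ^ 5) (1 + p * s + D / v * p * j) ≤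
          ∑ j ∈ range (D ^ 8), tl (D ^ 5) (p * (1 + p * s + D / v * p * j)) :=
        sum_le_sum fun j _ => tl_le_mul _ _ _ (Nat.mul_ne_zero hp.ne_zero (by omega))
      have h3 : (0 : ℝ) ≤ 1 - 1 / (p : ℝ) := by
        have : 1 / (p : ℝ) ≤ 1 := by
          rw [div_le_one hp0]; exact_mod_cast hp.one_le
        linarith
      have h4 : 1 - 1 / (p : ℝ) ≤ 1 := by
        have : 0 ≤ 1 / (p : ℝ) := by positivity
        linarith
      have h5 : ∀ A B J : ℝ, (1 - 1 / (p : ℝ)) * A - J * ((1 - 1 / (p : ℝ)) * B) =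
          (1 - 1 / (p : ℝ)) * (A - J * B) := by intro A B J; ring
      rw [h5, abs_mul, abs_of_nonneg h3]
      refine (mul_le_of_le_one_left (abs_nonneg _) h4).trans (h1.trans ?_)
      linarith
    · simp only [if_neg hvv]
      refine good v cA fun h => hvv ?_
      have h0 : p ∣ D / v0 * cA + 1 := hs ▸ dvd_mul_right _ _
      have e : ∀ u ∈ D.divisors, u * (D / u * cA + 1) = D * cA + u := by
        intro u hu
        rw [mul_add, ← mul_assoc, Nat.mul_div_cancel' (Nat.dvd_of_mem_divisors hu), mul_one]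
      have h1 : p ∣ D * cA + v := e v hv ▸ h.mul_left v
      have h2 : p ∣ D * cA + v0 := e v0 hv0 ▸ h0.mul_left v0
      have h3 : D * cA + v ≡ D * cA + v0 [MOD p] :=
        ((Nat.modEq_zero_iff_dvd).2 h1).trans ((Nat.modEq_zero_iff_dvd).2 h2).symm
      exact Nat.ModEq.eq_of_lt_of_lt (Nat.ModEq.add_left_cancel' _ h3)
        (lt_of_le_of_lt (Nat.divisor_le hv) hDp) (lt_of_le_of_lt (Nat.divisor_le hv0) hDp))
  have hdiff : ∑ v ∈ D.divisors, θ v * ((D ^ 8 : ℕ) * W (D ^ 5) (D / v * p ^ 2)) -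
      ∑ v ∈ D.divisors, θ v * ((D ^ 8 : ℕ) * (if v = v0 then
        (1 - 1 / (p : ℝ)) * W (D ^ 5) (D / v * p ^ 2) else W (D ^ 5) (D / v * p ^ 2))) =
      θ v0 * ((D : ℝ) ^ 8 * W (D ^ 5) (D / v0 * p ^ 2) / p) := by
    rw [← sum_sub_distrib, sum_eq_single v0]
    · simp only [if_true]; push_cast; ring
    · intro v _ hvv; simp only [if_neg hvv]; ring
    · intro h; exact absurd hv0 h
  have hW0 := hW (D ^ 5) (D / v0 * p ^ 2) (by positivity)
  have hfin : (D : ℝ) ^ 8 * W (D ^ 5) (D / v0 * p ^ 2) / p ≤ 60 * (D : ℝ) ^ 6 := by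
    have h1 := (abs_sub _ _).trans (add_le_add hB hA)
    rw [hdiff, abs_mul, hθ0, one_mul] at h1
    linarith [le_abs_self ((D : ℝ) ^ 8 * W (D ^ 5) (D / v0 * p ^ 2) / p)]
  rw [div_le_iff₀ hp0] at hfin
  have h8 : (D : ℝ) ^ 8 * (1 / 4) ≤ (D : ℝ) ^ 8 * W (D ^ 5) (D / v0 * p ^ 2) :=
    mul_le_mul_of_nonneg_left hW0 (by positivity)
  have h9 : 60 * (D : ℝ) ^ 6 * p ≤ 60 * (D : ℝ) ^ 6 * (2 * D) :=
    mul_le_mul_of_nonneg_left hp' (by positivity)
  have h10 : (D : ℝ) ^ 7 * 1000 ≤ (D : ℝ) ^ 7 * D := mul_le_mul_of_nonneg_left hD' (by positivity)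
  have h11 : (0 : ℝ) < (D : ℝ) ^ 7 := by positivity
  nlinarith

end Pool.Agent.Lib.ESC
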