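import Pool.Agent.Lib.ESC.Blue

/-! A set of smooth numbers with small expansion. -/

open Finset
open scoped Nat

namespace Pool.Agent.Lib.ESC

namespace COMB

theorem card_div {R : ℕ} (hR : Squarefree R) (j : ℕ) :
    (R ^ j).divisors.card = (j + 1) ^ R.primeFactors.card := by
  rcases Nat.eq_zero_or_pos j with rfl | hj
  · simp
  rw [Nat.card_divisors (pow_ne_zero _ hR.ne_zero), Nat.primeFactors_pow _ hj.ne', ← prod_const]
  refine prod_congr rfl fun p hp => ?_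
  rw [Nat.factorization_pow, Finsupp.smul_apply, Nat.factorization_eq_one_of_squarefree hR
    (Nat.prime_of_mem_primeFactors hp) (Nat.dvd_of_mem_primeFactors hp), smul_eq_mul, mul_one]

theorem bern (σ L : ℕ) : (2 * σ * L + L + 1) ^ σ ≤ 2 * (2 * σ * L + 1) ^ σ := by
  have hp : (0 : ℝ) < 2 * σ * L + L + 1 := by positivity
  have h0 : (0 : ℝ) ≤ σ * L := by positivity
  have hL : (0 : ℝ) ≤ L := by positivity
  have h1 : (L : ℝ) / (2 * σ * L + L + 1) ≤ 1 := by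
    rw [div_le_one hp]
    nlinarith
  have h2 := one_add_mul_le_pow (a := -((L : ℝ) / (2 * σ * L + L + 1))) (by linarith) σ
  have h3 : (1 : ℝ) + -((L : ℝ) / (2 * σ * L + L + 1)) = (2 * σ * L + 1) / (2 * σ * L + L + 1) := by
    field_simp
    ring
  have h4 : (σ : ℝ) * (L / (2 * σ * L + L + 1)) ≤ 1 / 2 := by
    rw [← mul_div_assoc, div_le_iff₀ hp]
    nlinarith
  rw [h3, div_pow, le_div_iff₀ (pow_pos hp σ)] at h2
  have h5 : ((2 : ℝ) * σ * L + L + 1) ^ σ ≤ 2 * (2 * σ * L + 1) ^ σ := by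
    nlinarith [pow_pos hp σ]
  exact_mod_cast h5

theorem smooth_dvd {s Y t : ℕ} (h0 : 0 < t) (ht : t ≤ Y) (h : ∀ p, p.Prime → p ∣ t → p ≤ s) :
    t ∣ primorial s ^ Nat.log 2 Y := by
  refine (Nat.dvd_iff_prime_pow_dvd_dvd _ _).2 fun p k hp hk => ?_
  rcases Nat.eq_zero_or_pos k with rfl | hk0
  · simp
  have h1 : p ∣ primorial s := hp.dvd_primorial_iff.2 (h p hp ((dvd_pow_self p hk0.ne').trans hk))
  have h2 : k ≤ Nat.log 2 Y := Nat.le_log_of_pow_le one_lt_two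
    (((Nat.pow_le_pow_left hp.two_le k).trans (Nat.le_of_dvd h0 hk)).trans ht)
  exact (pow_dvd_pow p h2).trans (pow_dvd_pow_of_dvd h1 _)

theorem split {Y t : ℕ} (h0 : 0 < t) (ht : t ≤ Y) :
    t ∣ primorial Y.sqrt ^ Nat.log 2 Y ∨ ∃ q ∈ (Ioc Y.sqrt Y).filter Nat.Prime, ∃ t',
      t = t' * q ∧ t' ∣ primorial Y.sqrt ^ Nat.log 2 Y := by
  by_cases h : ∀ p, p.Prime → p ∣ t → p ≤ Y.sqrt
  · exact Or.inl (smooth_dvd h0 ht h)
  push Not at h
  obtain ⟨q, hq, ⟨t', rfl⟩, hs⟩ := h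
  have ht' : 0 < t' := Nat.pos_of_mul_pos_left h0
  refine Or.inr ⟨q, mem_filter.2 ⟨mem_Ioc.2 ⟨hs, (Nat.le_mul_of_pos_right q ht').trans ht⟩, hq⟩,
    t', mul_comm _ _, smooth_dvd ht' ((Nat.le_mul_of_pos_left t' hq.pos).trans ht) fun p hp hd => ?_⟩
  by_contra hlt
  have h1 : Y.sqrt + 1 ≤ t' := (Nat.succ_le_of_lt (not_le.1 hlt)).trans (Nat.le_of_dvd ht' hd)
  have h2 := Nat.mul_le_mul (Nat.succ_le_of_lt hs) h1
  have h3 := Nat.lt_succ_sqrt Y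
  simp only [Nat.succ_eq_add_one] at h2 h3
  omega

theorem size {Y σ Q : ℕ} (hY : 27 ≤ Y) (hσ : σ ≤ Y.sqrt) (hQ : Q ≤ 4 ^ Y) :
    1000 * primorial Y.sqrt ^ (2 * σ * Nat.log 2 Y) * Q ^ (Nat.log 2 Y + 1) * (3 * Y)! ^ 2 ≤
      Y ^ (20 * Y) := by
  have hL : 4 ^ Nat.log 2 Y ≤ Y ^ 2 := by
    rw [show (4 : ℕ) = 2 ^ 2 by norm_num, ← pow_mul, mul_comm, pow_mul]
    exact Nat.pow_le_pow_left (Nat.pow_log_le_self 2 (by omega)) 2
  have h1 : 1000 ≤ Y ^ Y := calc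
    1000 ≤ 27 ^ 3 := by norm_num
    _ ≤ Y ^ 3 := Nat.pow_le_pow_left hY 3
    _ ≤ Y ^ Y := Nat.pow_le_pow_right (by omega) (by omega)
  have h2 : primorial Y.sqrt ^ (2 * σ * Nat.log 2 Y) ≤ Y ^ (4 * Y) := calc
    _ ≤ (4 ^ Y.sqrt) ^ (2 * σ * Nat.log 2 Y) := Nat.pow_le_pow_left (primorial_le_four_pow _) _
    _ = (4 ^ Nat.log 2 Y) ^ (2 * (Y.sqrt * σ)) := by
      rw [← pow_mul, ← pow_mul]
      congr 1
      ring
    _ ≤ (Y ^ 2) ^ (2 * (Y.sqrt * σ)) := Nat.pow_le_pow_left hL _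
    _ ≤ (Y ^ 2) ^ (2 * Y) := Nat.pow_le_pow_right (by positivity) (Nat.mul_le_mul_left 2
      ((Nat.mul_le_mul_left _ hσ).trans (Nat.sqrt_le Y)))
    _ = Y ^ (4 * Y) := by
      rw [← pow_mul]
      congr 1
      ring
  have h3 : Q ^ (Nat.log 2 Y + 1) ≤ Y ^ (3 * Y) := calc
    _ ≤ (4 ^ Y) ^ (Nat.log 2 Y + 1) := Nat.pow_le_pow_left hQ _
    _ = (4 ^ Nat.log 2 Y * 4) ^ Y := by rw [← pow_succ, ← pow_mul, ← pow_mul, mul_comm]
    _ ≤ (Y ^ 2 * Y) ^ Y := Nat.pow_le_pow_left (Nat.mul_le_mul hL (by omega)) _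
    _ = Y ^ (3 * Y) := by rw [← pow_succ, ← pow_mul]
  have h4 : (3 * Y)! ^ 2 ≤ Y ^ (12 * Y) := calc
    _ ≤ ((3 * Y) ^ (3 * Y)) ^ 2 := Nat.pow_le_pow_left (Nat.factorial_le_pow _) 2
    _ ≤ ((Y ^ 2) ^ (3 * Y)) ^ 2 := Nat.pow_le_pow_left (Nat.pow_le_pow_left (by nlinarith) _) 2
    _ = Y ^ (12 * Y) := by
      rw [← pow_mul, ← pow_mul]
      congr 1
      ring
  calc _ ≤ Y ^ Y * Y ^ (4 * Y) * Y ^ (3 * Y) * Y ^ (12 * Y) :=
        Nat.mul_le_mul (Nat.mul_le_mul (Nat.mul_le_mul h1 h2) h3) h4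
    _ = Y ^ (20 * Y) := by
      rw [← pow_add, ← pow_add, ← pow_add]
      congr 1
      ring

end COMB

theorem st_COMB (hM : St_MULT) : St_COMB := by
  intro Y hY
  set P := (Ioc Y.sqrt Y).filter Nat.Prime with hP
  set L := Nat.log 2 Y with hL
  set R := primorial Y.sqrt with hR
  set σ := R.primeFactors.card with hσ
  have hPp : ∀ q ∈ P, q.Prime := fun q hq => (mem_filter.1 hq).2
  have hPc : P.card ≤ 2 ^ (L + 1) := by
    refine ((card_filter_le _ _).trans ?_).trans (Nat.lt_pow_succ_log_self one_lt_two Y).le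
    rw [Nat.card_Ioc]
    omega
  obtain ⟨A, B, hne, hA, hB, hc⟩ := hM P (L + 1) hPp hPc
  have hR0 : R ≠ 0 := primorial_ne_zero _
  have hQ : ∀ r, r.Prime → r ∣ (∏ q ∈ P, q) ^ (L + 1) → Y.sqrt < r ∧ r ≤ Y := fun r hr hd => by
    obtain ⟨q, hq, h⟩ := (hr.prime.dvd_finsetProd_iff _).1 (hr.dvd_of_dvd_pow hd)
    rw [(Nat.prime_dvd_prime_iff_eq hr (hPp q hq)).1 h]
    exact mem_Ioc.1 (mem_filter.1 hq).1
  have hRr : ∀ r j, r.Prime → r ∣ R ^ j → r ≤ Y.sqrt := fun r j hr hd =>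
    hr.dvd_primorial_iff.1 (hr.dvd_of_dvd_pow hd)
  have hco : ∀ d ∈ (R ^ (2 * σ * L)).divisors, ∀ l ∈ A, d.Coprime l := fun d hd l hl =>
    Nat.coprime_of_dvd fun r hr h1 h2 => by
      have h3 := hRr r _ hr (h1.trans (Nat.dvd_of_mem_divisors hd))
      have h4 := (hQ r hr (h2.trans (hA l hl))).1
      omega
  have hU : (image₂ (fun d l => d * l) (R ^ (2 * σ * L)).divisors A).card =
      (2 * σ * L + 1) ^ σ * A.card := by
    rw [hσ, ← COMB.card_div (squarefree_primorial _)]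
    refine card_image₂_iff.2 ?_
    rintro ⟨d, l⟩ ⟨hd, hl⟩ ⟨d', l'⟩ ⟨hd', hl'⟩ h
    have h : d * l = d' * l' := h
    have h1 : d = d' := Nat.dvd_antisymm
      ((hco d hd l' hl').dvd_of_dvd_mul_right (h ▸ dvd_mul_right d l))
      ((hco d' hd' l hl).dvd_of_dvd_mul_right (h.symm ▸ dvd_mul_right d' l'))
    subst h1
    rw [Nat.eq_of_mul_eq_mul_left (Nat.pos_of_mem_divisors hd) h]
  refine ⟨1000 * R ^ (2 * σ * L) * (∏ q ∈ P, q) ^ (L + 1) * (3 * Y)! ^ 2,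
    image₂ (fun d l => d * l) (R ^ (2 * σ * L)).divisors A, ⟨?_, ?_, ?_, ?_, ?_⟩, ?_⟩
  · exact Nonempty.image₂ ⟨1, Nat.one_mem_divisors.2 (pow_ne_zero _ hR0)⟩ hne
  · intro u hu t h1 h2
    obtain ⟨d, hd, l, hl, rfl⟩ := mem_image₂.1 hu
    exact mul_dvd_mul (mul_dvd_mul ((Nat.dvd_of_mem_divisors hd).mul_left _) (hA l hl))
      (pow_dvd_pow_of_dvd (Nat.dvd_factorial h1 h2) 2)
  · intro u hu r hr hd
    obtain ⟨d, hd', l, hl, rfl⟩ := mem_image₂.1 hu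
    rcases (Nat.Prime.dvd_mul hr).1 hd with h | h
    · exact (hRr r _ hr (h.trans (Nat.dvd_of_mem_divisors hd'))).trans (Nat.sqrt_le_self Y)
    · exact (hQ r hr (h.trans (hA l hl))).2
  · have hsub : image₂ (fun u t => u * t) (image₂ (fun d l => d * l)
        (R ^ (2 * σ * L)).divisors A) (Icc 1 Y) ⊆
        image₂ (fun d l => d * l) (R ^ (2 * σ * L + L)).divisors B := by
      intro v hv
      obtain ⟨u, hu, t, ht, rfl⟩ := mem_image₂.1 hv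
      obtain ⟨d, hd, l, hl, rfl⟩ := mem_image₂.1 hu
      have key : ∀ t', t' ∣ R ^ L → d * t' ∈ (R ^ (2 * σ * L + L)).divisors := fun t' h =>
        Nat.mem_divisors.2 ⟨by
          rw [pow_add]
          exact mul_dvd_mul (Nat.dvd_of_mem_divisors hd) h, pow_ne_zero _ hR0⟩
      rcases COMB.split (mem_Icc.1 ht).1 (mem_Icc.1 ht).2 with h | ⟨q, hq, t', rfl, h⟩
      · exact mem_image₂.2 ⟨d * t, key t h, l, (hB l hl).1, by ring⟩
      · exact mem_image₂.2 ⟨d * t', key t' h, l * q, (hB l hl).2 q hq, by ring⟩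
    refine ((card_le_card hsub).trans (card_image₂_le _ _ _)).trans ?_
    rw [hU, COMB.card_div (squarefree_primorial _)]
    refine (Nat.mul_le_mul (COMB.bern σ L) hc).trans (le_of_eq ?_)
    ring
  · have h1 : 0 < ∏ q ∈ P, q := prod_pos fun q hq => (hPp q hq).pos
    have h2 := Nat.factorial_pos (3 * Y)
    have h3 := Nat.pos_of_ne_zero hR0
    rw [mul_assoc, mul_assoc]
    exact Nat.le_mul_of_pos_right _ (by positivity)
  · refine COMB.size hY ?_ (le_trans (Nat.le_of_dvd (primorial_pos Y) ?_) (primorial_le_four_pow Y))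
    · have h1 : R.primeFactors ⊆ Icc 1 Y.sqrt := fun p hp => mem_Icc.2
        ⟨(Nat.prime_of_mem_primeFactors hp).pos, (Nat.prime_of_mem_primeFactors
          hp).dvd_primorial_iff.1 (Nat.dvd_of_mem_primeFactors hp)⟩
      simpa using card_le_card h1
    · exact Finset.prod_primes_dvd _ (fun q hq => (hPp q hq).prime) fun q hq =>
        (hPp q hq).dvd_primorial_iff.2 (mem_Ioc.1 (mem_filter.1 hq).1).2

end Pool.Agent.Lib.ESC
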