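import Pool.Agent.Lib.ESC.Blue

/-! The core step: a monotone sequence with few jumps gives a contradiction. -/

open Finset
open scoped Nat

namespace Pool.Agent.Lib.ESC

theorem st_CORE (hS : St_STAR) (hL : St_SEL) (hA : St_AVG) : St_CORE := by
  intro n0 a q r ha hR K D U hU N b hb hNK hm h14 h30
  have hD : 1000 ≤ D := hU.big
  have hD0 : 0 < D := by omega
  have hq := hR.q_pos
  have h30' : D ^ 30 ≤ N := le_trans (Nat.le_mul_of_pos_right _ hq) h30
  have hDN : D ≤ N := le_trans (Nat.le_self_pow (by norm_num) D) h30'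
  have hK : 1 ≤ K := by
    rcases Nat.eq_zero_or_pos K with h | h
    · rw [h, pow_zero] at hNK
      omega
    · exact h
  obtain ⟨p, hp, hp1, hp2⟩ := Nat.exists_prime_lt_and_le_two_mul D hD0.ne'
  obtain ⟨k1, k14, kN, kU, kc, kt⟩ := hL a D p N ha hD hp.pos hp2 h14 h30'
  have hud : ∀ u ∈ U, u ∣ D := fun u hu => by
    simpa using hU.dvd u hu 1 le_rfl (by omega)
  have hKD : 81 * K ≤ p ^ 2 * D ^ 8 := by
    obtain ⟨u, hu⟩ := hU.ne
    have h1 := Nat.le_of_dvd hD0 (Dvd.dvd.trans (Dvd.intro_left u rfl)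
      (hU.dvd u hu (81 * K) (by omega) (by omega)))
    have h2 : 81 * K ≤ (81 * K) ^ 2 := Nat.le_self_pow (by norm_num) _
    have h3 : D ≤ D ^ 8 := Nat.le_self_pow (by norm_num) _
    have h4 : D ^ 8 ≤ p ^ 2 * D ^ 8 := Nat.le_mul_of_pos_left _ (pow_pos hp.pos 2)
    omega
  have hdiv : ∀ v, v ∣ D → ∀ k, D * k / v = D / v * k := fun v hv k =>
    Nat.mul_div_right_comm hv k
  have hpos : ∀ u ∈ U, 1 ≤ D / u := fun u hu =>
    Nat.div_pos (Nat.le_of_dvd hD0 (hud u hu)) (Nat.pos_of_dvd_of_pos (hud u hu) hD0)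
  have hbig : ∀ u ∈ U, ∀ k, k1 ≤ k → N ≤ D ^ 2 * (D / u * k) := fun u hu k hk => by
    have h1 : k1 ≤ D / u * k := hk.trans (Nat.le_mul_of_pos_left _ (hpos u hu))
    calc N ≤ 2 * D * k1 := kN
      _ ≤ D * D * (D / u * k) := Nat.mul_le_mul (Nat.mul_le_mul_right _ (by omega)) h1
      _ = D ^ 2 * (D / u * k) := by ring
  have h7 : 7 * q * D < N := by
    have h1 : D ^ 2 ≤ D ^ 30 := Nat.pow_le_pow_right hD0 (by norm_num)
    have h2 : 7 * D < D ^ 2 := by nlinarith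
    calc 7 * q * D = 7 * D * q := by ring
      _ < D ^ 30 * q := Nat.mul_lt_mul_of_pos_right (by omega) hq
      _ ≤ N := h30
  obtain ⟨η, v0, hv0, hη, hmax, hF⟩ := hS n0 a q r hR K D U hU N b (fun u => a (D / u * k1))
    {n | ∃ k ∈ Ico k1 (k1 + p ^ 2 * D ^ 8), n = D * k} hb hNK h7
    (fun u hu => (hm _ (hbig u hu k1 le_rfl)).1) (by
      rintro n ⟨k, hk, rfl⟩
      obtain ⟨hk1, hk2⟩ := mem_Ico.1 hk
      refine ⟨Dvd.intro _ rfl, (Nat.mul_le_mul_left D hk2.le).trans kU, fun u hu => ?_⟩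
      rw [hdiv u (hud u hu)]
      refine ⟨(hm _ (hbig u hu k hk1)).2, fun i hi => le_antisymm ?_ (ha ?_)⟩
      · refine (ha ?_).trans (kc u (Nat.mem_divisors.2 ⟨hud u hu, hD0.ne'⟩)).ge
        have h1 : p ^ 2 * D ^ 8 ≤ D / u * (p ^ 2 * D ^ 8) :=
          Nat.le_mul_of_pos_left _ (hpos u hu)
        have h2 : D / u * k ≤ D / u * (k1 + p ^ 2 * D ^ 8) := Nat.mul_le_mul_left _ hk2.le
        have h3 : D / u * (k1 + 2 * (p ^ 2 * D ^ 8)) =
            D / u * (k1 + p ^ 2 * D ^ 8) + D / u * (p ^ 2 * D ^ 8) := by ring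
        omega
      · exact (Nat.mul_le_mul_left _ hk1).trans (Nat.le_add_right _ _))
  refine hA D p k1 v0 η hD hp hp1 hp2 k14 hv0 hη hmax (fun k hk => ?_) kt
  have h1 := hF (D * k) ⟨k, hk, rfl⟩
  rwa [sum_congr rfl fun v hv => by rw [hdiv v (Nat.dvd_of_mem_divisors hv) k]] at h1

end Pool.Agent.Lib.ESC
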