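import Pool.Agent.Lib.ESC.Blue

/-! Expansion of the normalised tails over windows on which the base is constant. -/

open Finset Filter
open scoped Nat

noncomputable section

namespace Pool.Agent.Lib.ESC

namespace EXP

theorem expand {n0 : ℕ} {a : ℕ → ℕ} {q : ℕ} {r : ℕ → ℕ} (h : Rec n0 a q r) (m β : ℕ)
    (hβ : 0 < β) (hm : n0 ≤ m) (L : ℕ) (ha : ∀ i, 1 ≤ i → i ≤ L → a (m + i) = β) :
    (r m : ℝ) = ∑ t ∈ Icc 1 L, (q : ℝ) * φ (m + t) / (β : ℝ) ^ t + r (m + L) / (β : ℝ) ^ L := by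
  induction L with
  | zero => simp
  | succ L ih =>
    have h1 := ih (fun i hi hL => ha i hi (by omega))
    have h2 := h.eq (m + L) (by omega)
    have h3 : a (m + L + 1) = β := ha (L + 1) (by omega) le_rfl
    rw [h3] at h2
    have h4 : (r (m + L) : ℝ) * β = q * φ (m + (L + 1)) + r (m + (L + 1)) := by
      exact_mod_cast h2
    have hb : (β : ℝ) ≠ 0 := by exact_mod_cast hβ.ne'
    rw [Finset.sum_Icc_succ_top (by omega), h1, add_assoc, ← add_div, ← h4, pow_succ,
      mul_div_mul_right _ _ hb]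

theorem tot (n u t : ℕ) (hu : 0 < u) (ht : 0 < t) (hd : u * t ^ 2 ∣ n) :
    φ (n / u + t) = φ t * φ (n / (u * t) + 1) := by
  obtain ⟨k, rfl⟩ := hd
  have h1 : u * t ^ 2 * k / u = t * (t * k) := by
    rw [mul_assoc, Nat.mul_div_cancel_left _ hu]; ring
  have h2 : u * t ^ 2 * k / (u * t) = t * k := by
    have : u * t ^ 2 * k = u * t * (t * k) := by ring
    rw [this, Nat.mul_div_cancel_left _ (Nat.mul_pos hu ht)]
  have h3 : t * (t * k) + t = t * (t * k + 1) := by ring
  rw [h1, h2, h3, Nat.totient_mul (by simp)]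

end EXP

theorem st_EXP : St_EXP := by
  intro n0 a q r h Y D U hC β c n L hn hL hU
  have hD : D ≠ 0 := by have := hC.big; omega
  have key : ∀ u ∈ U, c u * (r (n / u) : ℝ) =
      q * ∑ v ∈ D.divisors, wt β L v u * c u * φ (n / v + 1) +
        c u * r (n / u + L) / (β u : ℝ) ^ L := by
    intro u hu
    obtain ⟨hβ, hm, ha⟩ := hU u hu
    have hdv : ∀ t ∈ Icc 1 L, u * t ^ 2 ∣ D := fun t ht =>
      hC.dvd u hu t (mem_Icc.1 ht).1 ((mem_Icc.1 ht).2.trans hL)
    have hmap : ∀ t ∈ Icc 1 L, u * t ∈ D.divisors := fun t ht =>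
      Nat.mem_divisors.2 ⟨Dvd.dvd.trans ⟨t, by ring⟩ (hdv t ht), hD⟩
    have hs : ∑ v ∈ D.divisors, wt β L v u * c u * (φ (n / v + 1) : ℝ) =
        ∑ t ∈ Icc 1 L, (φ t : ℝ) / (β u : ℝ) ^ t * c u * φ (n / (u * t) + 1) := by
      rw [← Finset.sum_fiberwise_of_maps_to hmap]
      refine Finset.sum_congr rfl fun v _ => ?_
      rw [wt, Finset.sum_mul, Finset.sum_mul]
      refine Finset.sum_congr rfl fun t ht => ?_
      rw [(mem_filter.1 ht).2]
    rw [hs, EXP.expand h (n / u) (β u) hβ hm L ha, mul_add, Finset.mul_sum, Finset.mul_sum,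
      mul_div_assoc (c u)]
    refine congrArg (· + _) (Finset.sum_congr rfl fun t ht => ?_)
    have hu0 : 0 < u := by
      rcases Nat.eq_zero_or_pos u with h0 | h0
      · have := hdv t ht
        rw [h0, zero_mul, zero_dvd_iff] at this
        exact absurd this hD
      · exact h0
    rw [EXP.tot n u t hu0 (mem_Icc.1 ht).1 ((hdv t ht).trans hn)]
    push_cast
    ring
  rw [Finset.sum_congr rfl key, Finset.sum_add_distrib, ← Finset.mul_sum, Finset.sum_comm]
  refine congrArg (fun x => (q : ℝ) * x + _) (Finset.sum_congr rfl fun v _ => ?_)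
  rw [Finset.sum_mul]

end Pool.Agent.Lib.ESC
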