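import Pool.Agent.Lib.ESC.Blue

/-! The denominators cannot grow linearly. -/

open Finset Filter
open scoped Nat

namespace Pool.Agent.Lib.ESC

namespace LIN

theorem tot_eq {d m : ℕ} (hd : 0 < d) (h : d ∣ m) : φ (d * m) = φ m * d := by
  have h1 := Nat.totient_gcd_mul_totient_mul d m
  rw [Nat.gcd_eq_left h, mul_assoc] at h1
  exact Nat.eq_of_mul_eq_mul_left (Nat.totient_pos.2 hd) h1

theorem harm (k : ℕ) :
    (φ (k ! * k !) : ℝ) * ∑ i ∈ range k, (1 : ℝ) / (i + 1) ≤ (k ! * k ! : ℕ) := by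
  have hk : k ! * k ! ≠ 0 := mul_ne_zero k.factorial_ne_zero k.factorial_ne_zero
  have h1 : ∑ d ∈ (range k).image (· + 1), φ (k ! * k ! / d) ≤ k ! * k ! := by
    conv_rhs => rw [← Nat.sum_totient (k ! * k !), ← Nat.sum_div_divisors]
    refine sum_le_sum_of_subset fun d hd => ?_
    obtain ⟨i, hi, rfl⟩ := mem_image.1 hd
    exact Nat.mem_divisors.2
      ⟨(Nat.dvd_factorial i.succ_pos (mem_range.1 hi)).mul_right _, hk⟩
  rw [sum_image fun _ _ _ _ h => Nat.succ_injective h] at h1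
  rw [mul_sum]
  refine le_trans (le_of_eq ?_) (Nat.cast_le.2 h1)
  rw [Nat.cast_sum]
  refine sum_congr rfl fun i hi => ?_
  obtain ⟨c, hc⟩ := Nat.dvd_factorial i.succ_pos (mem_range.1 hi)
  have h2 : k ! * k ! = (i + 1) * (c * k !) := by rw [← mul_assoc, ← hc]
  have h3 : (i + 1) ∣ c * k ! := Dvd.dvd.mul_left ⟨c, hc⟩ c
  rw [h2, tot_eq i.succ_pos h3, Nat.mul_div_cancel_left _ i.succ_pos]
  push_cast
  field_simp

theorem small (W M : ℕ) : ∃ n, M ≤ n ∧ W * φ n ≤ n := by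
  obtain ⟨k, h1, h2⟩ := ((Real.tendsto_sum_range_one_div_nat_succ_atTop.eventually_ge_atTop
    (W : ℝ)).and (eventually_ge_atTop M)).exists
  refine ⟨k ! * k !, h2.trans (k.self_le_factorial.trans
    (Nat.le_mul_of_pos_right _ k.factorial_pos)), ?_⟩
  have h3 := (mul_le_mul_of_nonneg_left h1 (Nat.cast_nonneg (φ (k ! * k !)))).trans (harm k)
  rw [mul_comm] at h3
  exact_mod_cast h3

end LIN

theorem st_LIN : St_LIN := by
  intro n0 a q r E ha hr h
  obtain ⟨N0, hN⟩ := eventually_atTop.1 h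
  obtain ⟨n, h1, h2⟩ := LIN.small (6 * E * q) (3 * N0 + n0 + 5 + 54 * E ^ 2 * q)
  obtain ⟨m, rfl⟩ : ∃ m, n = m + 1 := ⟨n - 1, by omega⟩
  have h3 : m + 1 < 3 * (a (m + 1) * E) := by
    have h4 := hN ((m + 1) / 3) (by omega)
    have h5 := Nat.mul_le_mul_right E (ha (show 3 * ((m + 1) / 3) ≤ m + 1 by omega))
    omega
  have h4 : a (m + 1) ≤ q * φ (m + 1) + r (m + 1) := by
    rw [← hr.eq m (by omega)]
    exact Nat.le_mul_of_pos_left _ (hr.pos m (by omega))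
  have h5 : r (m + 1) * a (m + 1) ≤ q * (3 * (m + 1)) := by
    have h6 := hr.eq (m + 1) (by omega)
    have h7 := hr.le (m + 1 + 1) (by omega)
    have h8 := Nat.mul_le_mul_left q (Nat.totient_le (m + 1 + 1))
    have h9 := Nat.mul_le_mul_left (r (m + 1)) (ha (Nat.le_succ (m + 1)))
    have h10 := Nat.mul_le_mul_left q (show m + 1 + 1 + (m + 1 + 1 + 2) ≤ 3 * (m + 1) by omega)
    rw [mul_add] at h10
    simp only [Nat.succ_eq_add_one] at h9
    omega
  have h6 : r (m + 1) ≤ 9 * E * q := by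
    refine Nat.le_of_mul_le_mul_right ?_ m.succ_pos
    calc r (m + 1) * (m + 1) ≤ r (m + 1) * (3 * (a (m + 1) * E)) := Nat.mul_le_mul_left _ h3.le
      _ = 3 * E * (r (m + 1) * a (m + 1)) := by ring
      _ ≤ 3 * E * (q * (3 * (m + 1))) := Nat.mul_le_mul_left _ h5
      _ = 9 * E * q * (m + 1) := by ring
  have h7 : 6 * (a (m + 1) * E) ≤ 6 * E * q * φ (m + 1) + 54 * E ^ 2 * q :=
    calc 6 * (a (m + 1) * E) ≤ 6 * ((q * φ (m + 1) + 9 * E * q) * E) :=
          Nat.mul_le_mul_left _ (Nat.mul_le_mul_right _ (h4.trans (Nat.add_le_add_left h6 _)))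
      _ = _ := by ring
  omega

end Pool.Agent.Lib.ESC
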