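import Pool.Agent.Lib.ESC.Blue

/-! Reduction of the eventually monotone case to the monotone case. -/

open Finset Filter
open scoped Nat

set_option linter.unusedVariables false

noncomputable section

namespace Pool.Agent.Lib.ESC

theorem st_MAIN (hT : St_TAIL) (hM : St_MONO) : St_MAIN := by
  intro a hpos hev
  by_contra hirr
  have hlog : ∀ᶠ n : ℕ in atTop, (2 : ℝ) ≤ Real.log n :=
    (Real.tendsto_log_atTop.comp tendsto_natCast_atTop_atTop).eventually_ge_atTop 2
  obtain ⟨n0, hn0⟩ := eventually_atTop.1 (hev.and hlog)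
  have h2 : ∀ n, n0 ≤ n → 2 ≤ a n := by
    intro n hn
    obtain ⟨⟨-, h1⟩, h3⟩ := hn0 n hn
    have h4 : Real.log n ≤ Real.log n ^ 100000 := le_self_pow₀ (by linarith) (by norm_num)
    have : (2 : ℝ) ≤ a n := h3.trans (h4.trans h1)
    exact_mod_cast this
  obtain ⟨q, r, hR⟩ := hT a n0 hpos h2 hirr
  have hmono : Monotone fun n => a (max n n0) := by
    apply monotone_nat_of_le_succ
    intro n
    rcases le_or_gt n0 n with h | h
    · rw [max_eq_left h, max_eq_left (h.trans n.le_succ)]
      exact (hn0 n h).1.1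
    · rw [max_eq_right h.le, max_eq_right (Nat.succ_le_of_lt h)]
  refine hM n0 (fun n => a (max n n0)) q r hmono ⟨hR.q_pos, ?_, hR.pos, hR.le⟩ ?_
  · intro M hM'
    rw [max_eq_left (hM'.trans M.le_succ)]
    exact hR.eq M hM'
  · filter_upwards [eventually_ge_atTop n0] with n hn
    rw [max_eq_left hn]
    exact (hn0 n hn).1.2

end Pool.Agent.Lib.ESC
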