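import Pool.Agent.Lib.ESC.Blue

/-! The case distinction on the growth of a monotone sequence. -/

open Filter

namespace Pool.Agent.Lib.ESC

namespace MONO

theorem tendsto_sqrt : Tendsto Nat.sqrt atTop atTop :=
  tendsto_atTop_atTop.2 fun b => ⟨b * b, fun _ h => Nat.le_sqrt.2 h⟩

theorem tendsto_div {c : ℕ} (hc : 0 < c) : Tendsto (fun n : ℕ => n / c) atTop atTop :=
  tendsto_atTop_atTop.2 fun b => ⟨b * c, fun _ h => (Nat.le_div_iff_mul_le hc).2 h⟩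

theorem K_le {s k : ℕ} (hs : 189 ≤ Real.log s) (h : 2 ^ k < (s + 1) ^ 2) :
    ((27 * (k + 1) : ℕ) : ℝ) ≤ Real.log s ^ 2 := by
  have h0 : 0 < s := by
    rcases Nat.eq_zero_or_pos s with rfl | h0
    · norm_num at hs
    · exact h0
  have h1 : 2 ^ k ≤ (2 * s) ^ 2 := h.le.trans (Nat.pow_le_pow_left (by omega) 2)
  have h2 : (2 : ℝ) ^ k ≤ (2 * (s : ℝ)) ^ 2 := by exact_mod_cast h1
  have h3 := Real.log_le_log (by positivity) h2
  have h0' : (s : ℝ) ≠ 0 := by positivity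
  rw [Real.log_pow, Real.log_pow, Real.log_mul two_ne_zero h0'] at h3
  have h4 := Real.log_two_gt_d9
  have h5 := Real.log_two_lt_d9
  have h6 : (0 : ℝ) ≤ k := Nat.cast_nonneg k
  push_cast at h3 ⊢
  have h7 : (k : ℝ) ≤ 4 + 4 * Real.log s := by nlinarith
  nlinarith

theorem D_le {D b k : ℕ} (hk : 1 ≤ k) (hD : D ≤ (27 * (k + 1)) ^ (20 * (27 * (k + 1))))
    (hb : (27 * (k + 1)) ^ 38880 ≤ b) : D ^ 36 ≤ b ^ k := by
  generalize hY : 27 * (k + 1) = Y at hb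
  have h1 : 0 < Y := by omega
  rw [hY] at hD
  calc D ^ 36 ≤ (Y ^ (20 * Y)) ^ 36 := Nat.pow_le_pow_left hD 36
    _ = Y ^ (20 * Y * 36) := (pow_mul _ _ _).symm
    _ ≤ Y ^ (38880 * k) := Nat.pow_le_pow_right h1 (by omega)
    _ = (Y ^ 38880) ^ k := pow_mul _ _ _
    _ ≤ b ^ k := Nat.pow_le_pow_left hb k

theorem pow_le {x : ℝ} {Y b : ℕ} (hx : 1 ≤ x) (hY : (Y : ℝ) ≤ x ^ 2) (hb : x ^ 100000 ≤ b) :
    Y ^ 38880 ≤ b := by
  have h1 : (Y : ℝ) ^ 38880 ≤ (x ^ 2) ^ 38880 := pow_le_pow_left₀ (Nat.cast_nonneg Y) hY _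
  rw [← pow_mul] at h1
  have h2 : x ^ (2 * 38880) ≤ x ^ 100000 := pow_le_pow_right₀ hx (by norm_num)
  have h3 : ((Y ^ 38880 : ℕ) : ℝ) ≤ b := by
    rw [Nat.cast_pow]
    exact h1.trans (h2.trans hb)
  exact Nat.cast_le.1 h3

theorem slow (hC : St_COMB) (hK : St_CORE) {n0 : ℕ} {a : ℕ → ℕ} {q : ℕ} {r : ℕ → ℕ}
    (ha : Monotone a) (hr : Rec n0 a q r) (h : ∀ᶠ n : ℕ in atTop, Real.log n ^ 100000 ≤ a n)
    (h1 : ∃ᶠ N in atTop, a (3 * N) ^ 2 ≤ N) : False := by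
  have hl : ∀ᶠ n : ℕ in atTop, 189 ≤ Real.log n :=
    (Real.tendsto_log_atTop.comp tendsto_natCast_atTop_atTop).eventually_ge_atTop 189
  obtain ⟨N, hN, ⟨⟨h2, h3⟩, h4⟩, h5⟩ := (h1.and_eventually ((tendsto_sqrt.eventually
    ((h.and hl).and (eventually_ge_atTop n0))).and (eventually_ge_atTop (q ^ 6)))).exists
  have hsN : N.sqrt ≤ 3 * N := (Nat.sqrt_le_self N).trans (by omega)
  have hss : N.sqrt * N.sqrt ≤ N := Nat.sqrt_le N
  have hlt : N < (N.sqrt + 1) ^ 2 := Nat.lt_succ_sqrt' N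
  have hle : ∀ x, x * x ≤ N → x ≤ N.sqrt := fun x => Nat.le_sqrt.2
  generalize N.sqrt = s at h2 h3 h4 hsN hss hlt hle
  have hx : 1 ≤ Real.log s := le_trans (by norm_num) h3
  have hb : 2 ≤ a s := by
    have h6 : Real.log s ≤ Real.log s ^ 100000 := le_self_pow₀ hx (by norm_num)
    have h7 : ((2 : ℕ) : ℝ) ≤ a s := le_trans (by norm_num) (h3.trans (h6.trans h2))
    exact Nat.cast_le.1 h7
  have hb2 : a s ^ 2 ≤ N := (Nat.pow_le_pow_left (ha hsN) 2).trans hN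
  have h6 : N ≤ a s ^ Nat.clog (a s) N := Nat.le_pow_clog hb N
  have h7 : a s ^ (Nat.clog (a s) N).pred < N := Nat.pow_pred_clog_lt_self hb (by nlinarith)
  have h8 : 2 ≤ Nat.clog (a s) N := (Nat.pow_le_pow_iff_right hb).1 (hb2.trans h6)
  obtain ⟨k, hk⟩ : ∃ k, Nat.clog (a s) N = k + 1 := ⟨_, (Nat.succ_pred_eq_of_pos (by omega)).symm⟩
  rw [hk] at h6 h7 h8
  rw [Nat.pred_succ] at h7
  obtain ⟨D, U, hU, hD⟩ := hC (27 * (k + 1)) (by omega)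
  have h9 : D ^ 36 ≤ N := (D_le (by omega) hD (pow_le hx
    (K_le h3 (((Nat.pow_le_pow_left hb k).trans_lt h7).trans hlt)) h2)).trans h7.le
  have hD0 : 0 < D := lt_of_lt_of_le (by norm_num) hU.big
  have h10 : ∀ j ≤ 36, D ^ j ≤ N := fun j hj => (Nat.pow_le_pow_right hD0 hj).trans h9
  refine hK n0 a q r ha hr (k + 1) D U hU N (a s) hb h6 (fun m hm => ?_) ?_ ?_
  · have h11 : D ^ 2 ≤ s := hle _ (by rw [← pow_add]; exact h10 _ (by norm_num))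
    have h12 : s ≤ m := Nat.le_of_mul_le_mul_left
      (hss.trans (hm.trans (Nat.mul_le_mul_right m h11))) ((Nat.pow_pos hD0).trans_le h11)
    exact ⟨ha h12, h4.trans h12⟩
  · refine (Nat.pow_le_pow_iff_left two_ne_zero).1 ?_
    rw [mul_pow, ← pow_mul, pow_two N]
    exact Nat.mul_le_mul hN (h10 _ (by norm_num))
  · refine (Nat.pow_le_pow_iff_left (n := 6) (by norm_num)).1 ?_
    calc (D ^ 30 * q) ^ 6 = (D ^ 36) ^ 5 * q ^ 6 := by ring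
      _ ≤ N ^ 5 * N := Nat.mul_le_mul (Nat.pow_le_pow_left h9 5) h5
      _ = N ^ 6 := by ring

theorem fast (hK : St_CORE) {n0 : ℕ} {a : ℕ → ℕ} {q : ℕ} {r : ℕ → ℕ}
    (ha : Monotone a) (hr : Rec n0 a q r) {D : ℕ} {U : Finset ℕ} (hU : Comb (27 * 3) D U)
    (h1 : ∀ᶠ N in atTop, N < a (3 * N) ^ 2) (h2 : ∃ᶠ N in atTop, a (3 * N) * D ^ 14 ≤ N) :
    False := by
  have hD0 : 0 < D := lt_of_lt_of_le (by norm_num) hU.big
  have hD2 : 0 < D ^ 2 := by positivity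
  obtain ⟨N, hN, ⟨⟨h3, h4⟩, h5⟩, h6⟩ := (h2.and_eventually (((tendsto_div hD2).eventually
    (((tendsto_div three_pos).eventually (h1.and (eventually_ge_atTop (36 * D ^ 4)))).and
      (eventually_ge_atTop n0))).and (eventually_ge_atTop (D ^ 30 * q)))).exists
  have h7 : N < D ^ 2 * (N / D ^ 2 + 1) := Nat.lt_mul_div_succ N hD2
  have h8 : ∀ m, N ≤ D ^ 2 * m → N / D ^ 2 ≤ m := fun m => Nat.div_le_of_le_mul
  generalize N / D ^ 2 = m at h3 h4 h5 h7 h8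
  have h9 : 3 * (m / 3) ≤ m := Nat.mul_div_le m 3
  have h10 : m < 3 * (m / 3 + 1) := Nat.lt_mul_div_succ m three_pos
  generalize m / 3 = t at h3 h4 h9 h10
  have h11 : t < a m ^ 2 := h3.trans_le (Nat.pow_le_pow_left (ha h9) 2)
  have h12 : 36 ≤ t := le_trans (Nat.le_mul_of_pos_right 36 (by positivity)) h4
  refine hK n0 a q r ha hr 3 D U hU N (a m) ?_ ?_
    (fun m' hm => ⟨ha (h8 m' hm), h5.trans (h8 m' hm)⟩) hN h6
  · by_contra hc
    have : a m ^ 2 ≤ 2 ^ 2 := Nat.pow_le_pow_left (by omega) 2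
    omega
  · refine (Nat.pow_le_pow_iff_left two_ne_zero).1 ?_
    calc N ^ 2 ≤ (D ^ 2 * (6 * t)) ^ 2 :=
          Nat.pow_le_pow_left (h7.le.trans (Nat.mul_le_mul_left _ (by omega))) 2
      _ = 36 * D ^ 4 * t ^ 2 := by ring
      _ ≤ t * t ^ 2 := Nat.mul_le_mul_right _ h4
      _ = t ^ 3 := by ring
      _ ≤ (a m ^ 2) ^ 3 := Nat.pow_le_pow_left h11.le 3
      _ = (a m ^ 3) ^ 2 := by ring

end MONO

theorem st_MONO (hC : St_COMB) (hK : St_CORE) (hL : St_LIN) : St_MONO := by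
  intro n0 a q r ha hr h
  by_cases h1 : ∃ᶠ N in atTop, a (3 * N) ^ 2 ≤ N
  · exact MONO.slow hC hK ha hr h h1
  obtain ⟨D, U, hU, -⟩ := hC (27 * 3) (by norm_num)
  by_cases h2 : ∃ᶠ N in atTop, a (3 * N) * D ^ 14 ≤ N
  · exact MONO.fast hK ha hr hU ((not_frequently.1 h1).mono fun _ => not_le.1) h2
  · exact hL n0 a q r (D ^ 14) ha hr ((not_frequently.1 h2).mono fun _ => not_le.1)

end Pool.Agent.Lib.ESC
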