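import Pool.Agent.Lib.ESC.Blue

/-! Products of a fixed number of primes with bounded multiplicities. -/

open Finset

set_option linter.unusedVariables false

noncomputable section

namespace Pool.Agent.Lib.ESC

namespace MULT

/-- The number with exponent vector `e`. -/
def pr (e : ℕ →₀ ℕ) : ℕ := e.prod (fun q k => q ^ k)

theorem step (m j : ℕ) :
    (j + 1) * (m + (j + 1)).choose (j + 1) = (m + j + 1) * (m + j).choose j := by
  rw [Nat.add_one_mul_choose_eq, mul_comm, add_assoc]

theorem up (m : ℕ) : (m + (m + 1)).choose (m + 1) ≤ 2 * (m + m).choose m := by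
  have h := step m m
  refine Nat.le_of_mul_le_mul_left (c := m + 1) ?_ (Nat.succ_pos m)
  rw [h, ← mul_assoc]
  exact Nat.mul_le_mul_right _ (by omega)

theorem dbl (m j : ℕ) (hj : j + 1 ≤ m) : 2 * (m + j).choose j ≤ (m + (j + 1)).choose (j + 1) := by
  have h := step m j
  refine Nat.le_of_mul_le_mul_left (c := j + 1) ?_ (Nat.succ_pos j)
  rw [h, ← mul_assoc]
  exact Nat.mul_le_mul_right _ (by omega)

theorem dbl_pow (m i : ℕ) : ∀ j, j + i ≤ m →
    2 ^ i * (m + j).choose j ≤ (m + (j + i)).choose (j + i) := by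
  induction i with
  | zero => intro j _; simp
  | succ i ih =>
    intro j hj
    have h1 := ih j (by omega)
    have h2 := dbl m (j + i) (by omega)
    rw [pow_succ, mul_comm (2 ^ i) 2, mul_assoc, ← add_assoc j i 1]
    exact le_trans (Nat.mul_le_mul_left 2 h1) h2

theorem cardX (P : Finset ℕ) (m j : ℕ) (hP : P.card = m + 1) :
    (P.finsuppAntidiag j).card = (m + j).choose j := by
  rw [card_finsuppAntidiag_nat_eq_choose, hP, show m + 1 + j - 1 = m + j by omega]

theorem inj (P : Finset ℕ) (hp : ∀ q ∈ P, q.Prime) (j : ℕ) :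
    Set.InjOn pr (P.finsuppAntidiag j : Set (ℕ →₀ ℕ)) := by
  intro e he e' he' h
  have h1 := (mem_finsuppAntidiag.1 (mem_coe.1 he)).2
  have h2 := (mem_finsuppAntidiag.1 (mem_coe.1 he')).2
  have h3 := Nat.prod_pow_factorization_eq_self (f := e) (fun p hq => hp p (h1 hq))
  have h4 := Nat.prod_pow_factorization_eq_self (f := e') (fun p hq => hp p (h2 hq))
  rw [← h3, ← h4]
  exact congrArg Nat.factorization h

theorem add_mem (P : Finset ℕ) (j i q : ℕ) (hq : q ∈ P) (e : ℕ →₀ ℕ)
    (he : e ∈ P.finsuppAntidiag j) : e + Finsupp.single q i ∈ P.finsuppAntidiag (j + i) := by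
  obtain ⟨h1, h2⟩ := mem_finsuppAntidiag.1 he
  refine mem_finsuppAntidiag.2 ⟨?_, ?_⟩
  · simp only [Finsupp.coe_add, Pi.add_apply, sum_add_distrib]
    have h3 : ∑ x ∈ P, e x = j := h1
    rw [h3, sum_eq_single q (fun b _ hb => Finsupp.single_eq_of_ne hb) (fun h => absurd hq h),
      Finsupp.single_eq_same]
  · refine (Finsupp.support_add).trans (union_subset h2 ?_)
    exact (Finsupp.support_single_subset).trans (singleton_subset_iff.2 hq)

theorem pr_add (e : ℕ →₀ ℕ) (q : ℕ) : pr (e + Finsupp.single q 1) = pr e * q := by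
  unfold pr
  rw [Finsupp.prod_add_index' (fun a => pow_zero a) (fun a b c => pow_add a b c),
    Finsupp.prod_single_index (pow_zero q), pow_one]

theorem bad (P : Finset ℕ) (m h : ℕ) (hP : P.card = m + 1) (hc : P.card ≤ 2 ^ h) :
    2 * ((P.finsuppAntidiag m).filter (fun e => ¬ ∀ q ∈ P, e q ≤ h)).card ≤
      (m + m).choose m := by
  by_cases hm : h + 1 ≤ m
  · obtain ⟨j, hj⟩ := Nat.exists_eq_add_of_le' hm
    have h1 : (P.finsuppAntidiag m).filter (fun e => ¬ ∀ q ∈ P, e q ≤ h) ⊆
        image₂ (fun q e => e + Finsupp.single q (h + 1)) P (P.finsuppAntidiag j) := by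
      intro e he
      obtain ⟨h2, h3⟩ := mem_filter.1 he
      push Not at h3
      obtain ⟨q, hq, h4⟩ := h3
      obtain ⟨h5, h6⟩ := mem_finsuppAntidiag.1 h2
      have h7 : Finsupp.single q (h + 1) ≤ e := Finsupp.single_le_iff.2 h4
      have h8 : e - Finsupp.single q (h + 1) + Finsupp.single q (h + 1) = e :=
        tsub_add_cancel_of_le h7
      refine mem_image₂.2 ⟨q, hq, e - Finsupp.single q (h + 1), ?_, h8⟩
      have h9 : (e - Finsupp.single q (h + 1)).support ⊆ P :=
        (Finsupp.support_tsub).trans h6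
      have h10 := (mem_finsuppAntidiag.1 (add_mem P _ (h + 1) q hq _
        (mem_finsuppAntidiag.2 ⟨rfl, h9⟩))).1
      rw [h8, h5] at h10
      exact mem_finsuppAntidiag.2 ⟨by omega, h9⟩
    have h2 := (card_le_card h1).trans (card_image₂_le _ _ _)
    rw [cardX P m j hP] at h2
    have h3 := dbl_pow m (h + 1) j (by omega)
    rw [← hj] at h3
    have h4 : P.card * (m + j).choose j ≤ 2 ^ h * (m + j).choose j := Nat.mul_le_mul_right _ hc
    rw [pow_succ, mul_comm (2 ^ h) 2, mul_assoc] at h3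
    omega
  · have h1 : (P.finsuppAntidiag m).filter (fun e => ¬ ∀ q ∈ P, e q ≤ h) = ∅ := by
      refine filter_eq_empty_iff.2 (fun e he h2 => h2 (fun q hq => ?_))
      have h3 : ∑ x ∈ P, e x = m := (mem_finsuppAntidiag.1 he).1
      have h4 : e q ≤ ∑ x ∈ P, e x := single_le_sum (fun _ _ => Nat.zero_le _) hq
      omega
    rw [h1]
    simp

end MULT

open MULT in
theorem st_MULT : St_MULT := by
  intro P h hp hc
  rcases P.eq_empty_or_nonempty with rfl | hne
  · exact ⟨{1}, {1}, singleton_nonempty _, by simp, by simp, by simp⟩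
  obtain ⟨m, hP⟩ : ∃ m, P.card = m + 1 := Nat.exists_eq_succ_of_ne_zero hne.card_pos.ne'
  have h1 := bad P m h hP hc
  have h2 := card_filter_add_card_filter_not (s := P.finsuppAntidiag m)
    (fun e => ∀ q ∈ P, e q ≤ h)
  rw [cardX P m m hP] at h2
  have h3 : 0 < (m + m).choose m := Nat.choose_pos (Nat.le_add_left m m)
  have h4 : (image pr ((P.finsuppAntidiag m).filter (fun e => ∀ q ∈ P, e q ≤ h))).card =
      ((P.finsuppAntidiag m).filter (fun e => ∀ q ∈ P, e q ≤ h)).card :=
    card_image_of_injOn ((inj P hp m).mono (coe_subset.2 (filter_subset _ _)))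
  refine ⟨image pr ((P.finsuppAntidiag m).filter (fun e => ∀ q ∈ P, e q ≤ h)),
    image pr (P.finsuppAntidiag m) ∪ image pr (P.finsuppAntidiag (m + 1)), ?_, ?_, ?_, ?_⟩
  · rw [← card_pos, h4]
    omega
  · intro l hl
    obtain ⟨e, he, rfl⟩ := mem_image.1 hl
    obtain ⟨h5, h6⟩ := mem_filter.1 he
    unfold pr
    rw [Finsupp.prod_of_support_subset e (mem_finsuppAntidiag.1 h5).2 _
      (fun i _ => pow_zero i), ← prod_pow]
    exact prod_dvd_prod_of_dvd _ _ (fun q hq => pow_dvd_pow q (h6 q hq))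
  · intro l hl
    obtain ⟨e, he, rfl⟩ := mem_image.1 hl
    have h5 := (mem_filter.1 he).1
    refine ⟨mem_union_left _ (mem_image_of_mem _ h5), fun q hq => mem_union_right _ ?_⟩
    exact mem_image.2 ⟨_, add_mem P m 1 q hq e h5, pr_add e q⟩
  · have h5 := card_union_le (image pr (P.finsuppAntidiag m))
      (image pr (P.finsuppAntidiag (m + 1)))
    have h6 := card_image_le (s := P.finsuppAntidiag m) (f := pr)
    have h7 := card_image_le (s := P.finsuppAntidiag (m + 1)) (f := pr)
    rw [cardX P m _ hP] at h6 h7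
    have h8 := up m
    rw [h4]
    omega

end Pool.Agent.Lib.ESC
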