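import Pool.Agent.Lib.ESC.Blue

open Finset

noncomputable section

namespace Pool.Agent.Lib.ESC

namespace SEL

theorem tele (g : ℕ → ℝ) (I : ℕ) :
    ∑ i ∈ range I, (g (i + 2) - g i) = g (I + 1) + g I - g 1 - g 0 := by
  induction I with
  | zero => simp
  | succ I ih => rw [sum_range_succ, ih]; ring

theorem blocks (F : ℕ → ℝ) (K H I : ℕ) :
    ∑ i ∈ range I, ∑ k ∈ Ico (K + i * H) (K + i * H + H), F k = ∑ k ∈ Ico K (K + I * H), F k := by
  induction I with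
  | zero => simp
  | succ I ih =>
    rw [sum_range_succ, ih, sum_Ico_consecutive _ (by omega) (by omega)]
    congr 2
    ring

theorem tl_nonneg (y m : ℕ) : 0 ≤ tl y m := sum_nonneg fun _ _ => by positivity

theorem tails (hT : St_TAV) {D K β : ℕ} (hD : 1000 ≤ D) (hK : D ^ 14 ≤ K) (hβ : β ≤ D) :
    ∑ k ∈ Ico K (K + K), tl (D ^ 5) (β * k + 1) ≤ 3 * (K : ℝ) / (D : ℝ) ^ 5 := by
  have hD' : (1000 : ℝ) ≤ D := by exact_mod_cast hD
  have hK' : (D : ℝ) ^ 14 ≤ K := by exact_mod_cast hK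
  have hβ' : (β : ℝ) ≤ D := by exact_mod_cast hβ
  have hD0 : (0 : ℝ) < D := by linarith
  have h1 := hT β (D ^ 5) (K + K) (by positivity)
  have h2 : ∑ k ∈ Ico K (K + K), tl (D ^ 5) (β * k + 1) ≤
      ∑ k ∈ range (K + K), tl (D ^ 5) (β * k + 1) :=
    sum_le_sum_of_subset_of_nonneg (fun k hk => mem_range.2 (mem_Ico.1 hk).2)
      fun _ _ _ => tl_nonneg _ _
  have hK1 : (1 : ℝ) ≤ K := (one_le_pow₀ (by linarith)).trans hK'
  have h3 : √(β * ((K + K : ℕ) : ℝ) + 1) ≤ K / (2 * (D : ℝ) ^ 5) := by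
    refine Real.sqrt_le_iff.2 ⟨by positivity, ?_⟩
    rw [div_pow, le_div_iff₀ (by positivity)]
    have h4 : (β : ℝ) * ((K + K : ℕ) : ℝ) + 1 ≤ 3 * D * K := by
      push_cast
      nlinarith
    have h5 : (12 : ℝ) ≤ (D : ℝ) ^ 3 := by nlinarith [mul_pos hD0 hD0]
    calc _ ≤ 3 * D * K * (2 * (D : ℝ) ^ 5) ^ 2 := by gcongr
      _ = K * (12 * (D : ℝ) ^ 11) := by ring
      _ ≤ K * ((D : ℝ) ^ 3 * (D : ℝ) ^ 11) := by gcongr
      _ = K * (D : ℝ) ^ 14 := by ring
      _ ≤ K * K := by gcongr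
      _ = _ := by ring
  refine h2.trans (h1.trans ?_)
  calc _ ≤ ((K + K : ℕ) : ℝ) / ((D ^ 5 : ℕ) : ℝ) + 2 * (K / (2 * (D : ℝ) ^ 5)) := by gcongr
    _ = _ := by
      push_cast
      field_simp
      ring

end SEL

theorem st_SEL (hT : St_TAV) : St_SEL := by
  intro a D p N ha hD hp hpD haN hN
  obtain ⟨H, hH⟩ : ∃ H, H = p ^ 2 * D ^ 8 := ⟨_, rfl⟩
  rw [← hH]
  have hD0 : 0 < D := by omega
  have hH0 : 0 < H := by rw [hH]; positivity
  have hH1 : D * H ≤ 4 * D ^ 11 := by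
    calc D * H = p ^ 2 * D ^ 9 := by rw [hH]; ring
      _ ≤ (2 * D) ^ 2 * D ^ 9 := by gcongr
      _ = _ := by ring
  have hH2 : D * H ≤ N := by
    calc D * H ≤ 4 * D ^ 11 := hH1
      _ ≤ D * D ^ 11 := by gcongr; omega
      _ = D ^ 12 := by ring
      _ ≤ D ^ 30 := Nat.pow_le_pow_right hD0 (by norm_num)
      _ ≤ N := hN
  obtain ⟨I, hI⟩ : ∃ I, I = N / (D * H) := ⟨_, rfl⟩
  have hI1 : 1 ≤ I := by rw [hI]; exact Nat.div_pos hH2 (by positivity)
  have hK1 : D * (I * H) ≤ N := by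
    calc D * (I * H) = I * (D * H) := by ring
      _ ≤ N := by rw [hI]; exact Nat.div_mul_le_self _ _
  have hK2 : N ≤ 2 * D * (I * H) := by
    calc N ≤ (D * H) * (I + 1) := by rw [hI]; exact (Nat.lt_mul_div_succ _ (by positivity)).le
      _ ≤ (D * H) * (I + I) := by gcongr
      _ = _ := by ring
  have hK3 : D ^ 14 ≤ I * H := by
    refine Nat.le_of_mul_le_mul_left (c := 2 * D) ?_ (by positivity)
    calc 2 * D * D ^ 14 ≤ D * D * D ^ 14 := by gcongr; omega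
      _ = D ^ 16 := by ring
      _ ≤ D ^ 30 := Nat.pow_le_pow_right hD0 (by norm_num)
      _ ≤ _ := hN.trans hK2
  have hD' : (1000 : ℝ) ≤ D := by exact_mod_cast hD
  have hDp : (0 : ℝ) < D := by linarith
  have hp' : (0 : ℝ) < p := by exact_mod_cast hp
  have hcard : ((D.divisors.card : ℕ) : ℝ) ≤ D := by exact_mod_cast Nat.card_divisors_le_self D
  let g : ℕ → ℕ → ℝ := fun u i => a (D / u * (I * H + i * H))
  let J : ℕ → ℝ := fun i => ∑ u ∈ D.divisors, (g u (i + 2) - g u i)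
  let T : ℕ → ℝ := fun i => ∑ v ∈ D.divisors,
    ∑ k ∈ Ico (I * H + i * H) (I * H + i * H + H), tl (D ^ 5) (D / v * k + 1)
  have hg0 : ∀ u i, 0 ≤ g u i := fun u i => Nat.cast_nonneg _
  have hg1 : ∀ u i, i ≤ I + 1 → g u i ≤ a (3 * N) := fun u i hi => by
    refine Nat.cast_le.2 (ha ?_)
    calc D / u * (I * H + i * H) ≤ D * (I * H + (I + I) * H) := by
          gcongr
          · exact Nat.div_le_self _ _
          · omega
      _ = 3 * (D * (I * H)) := by ring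
      _ ≤ 3 * N := by gcongr
  have hg2 : ∀ u i, 0 ≤ g u (i + 2) - g u i := fun u i => by
    refine sub_nonneg.2 (Nat.cast_le.2 (ha ?_))
    gcongr
    omega
  have hJ : ∑ i ∈ range I, J i < I / 2 := by
    have h1 : ∑ i ∈ range I, J i ≤ D * (2 * a (3 * N)) := by
      rw [sum_comm]
      refine (sum_le_card_nsmul _ _ (2 * (a (3 * N) : ℝ)) fun u _ => ?_).trans ?_
      · rw [SEL.tele]
        linarith [hg0 u 0, hg0 u 1, hg1 u I (by omega), hg1 u (I + 1) le_rfl]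
      · rw [nsmul_eq_mul]
        gcongr
    have h2 : a (3 * N) * D ^ 3 ≤ 8 * I := by
      refine Nat.le_of_mul_le_mul_right (c := D ^ 11) ?_ (by positivity)
      calc a (3 * N) * D ^ 3 * D ^ 11 = a (3 * N) * D ^ 14 := by ring
        _ ≤ 2 * D * (I * H) := haN.trans hK2
        _ = 2 * I * (D * H) := by ring
        _ ≤ 2 * I * (4 * D ^ 11) := by gcongr
        _ = _ := by ring
    have h3 : (a (3 * N) : ℝ) * (D : ℝ) ^ 3 ≤ 8 * I := by exact_mod_cast h2
    have h4 : (1 : ℝ) ≤ I := by exact_mod_cast hI1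
    have h5 : (0 : ℝ) ≤ a (3 * N) * D := by positivity
    have h6 : (64 : ℝ) ≤ (D : ℝ) ^ 2 := by nlinarith
    have h7 : (a (3 * N) : ℝ) * D * 64 ≤ a (3 * N) * D * (D : ℝ) ^ 2 := by gcongr
    nlinarith
  have hTs : ∑ i ∈ range I, T i / (6 * (p : ℝ) ^ 2 * (D : ℝ) ^ 4) ≤ (I : ℝ) / 2 := by
    rw [← sum_div, div_le_iff₀ (by positivity), sum_comm]
    refine (sum_le_card_nsmul _ _ (3 * ((I * H : ℕ) : ℝ) / (D : ℝ) ^ 5) fun v _ => ?_).trans ?_
    · rw [SEL.blocks]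
      exact SEL.tails hT hD hK3 (Nat.div_le_self _ _)
    · rw [nsmul_eq_mul]
      calc _ ≤ D * (3 * ((I * H : ℕ) : ℝ) / (D : ℝ) ^ 5) := by gcongr
        _ = _ := by
          rw [hH]
          push_cast
          field_simp
          ring
  obtain ⟨i, hi, hc⟩ : ∃ i ∈ range I, J i + T i / (6 * (p : ℝ) ^ 2 * (D : ℝ) ^ 4) < 1 := by
    refine exists_lt_of_sum_lt ?_
    rw [sum_add_distrib, sum_const, card_range, nsmul_one]
    linarith
  have hi' := mem_range.1 hi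
  have hJ0 : 0 ≤ J i := sum_nonneg fun u _ => hg2 u i
  have hT0 : 0 ≤ T i := sum_nonneg fun _ _ => sum_nonneg fun _ _ => SEL.tl_nonneg _ _
  refine ⟨I * H + i * H, by omega, hK2.trans (by gcongr; omega), ?_, fun u hu => ?_, ?_⟩
  · calc D * (I * H + i * H + H) = D * (I * H + (i + 1) * H) := by ring
      _ ≤ D * (I * H + I * H) := by gcongr; omega
      _ = 2 * (D * (I * H)) := by ring
      _ ≤ 2 * N := by gcongr
  · have h1 : g u (i + 2) - g u i ≤ J i :=
      single_le_sum (f := fun u => g u (i + 2) - g u i) (fun u _ => hg2 u i) hu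
    have h2 : 0 ≤ T i / (6 * (p : ℝ) ^ 2 * (D : ℝ) ^ 4) := by positivity
    have h3 : g u (i + 2) < g u i + 1 := by linarith
    have h4 : g u i ≤ g u (i + 2) := sub_nonneg.1 (hg2 u i)
    have e : I * H + i * H + 2 * H = I * H + (i + 2) * H := by ring
    rw [e]
    have h5 : a (D / u * (I * H + (i + 2) * H)) < a (D / u * (I * H + i * H)) + 1 := by
      simp only [g] at h3
      exact_mod_cast h3
    exact le_antisymm (Nat.cast_le.1 h4) (by omega)
  · have h1 : T i / (6 * (p : ℝ) ^ 2 * (D : ℝ) ^ 4) ≤ 1 := by linarith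
    exact (div_le_one (by positivity)).1 h1

end Pool.Agent.Lib.ESC
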