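import Pool.Agent.Lib.ESC.Blue

open Finset

noncomputable section

namespace Pool.Agent.Lib.ESC

namespace SIEG

/-- Extension by zero of a bounded vector. -/
def ex (U : Finset ℕ) (C : ℕ) (x : U → Fin (C + 1)) (u : ℕ) : ℤ :=
  if h : u ∈ U then ((x ⟨u, h⟩ : ℕ) : ℤ) else 0

theorem ex_bd (U : Finset ℕ) (C : ℕ) (x : U → Fin (C + 1)) (u : ℕ) :
    0 ≤ ex U C x u ∧ ex U C x u ≤ C := by
  unfold ex
  split_ifs with h
  · have := (x ⟨u, h⟩).2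
    omega
  · omega

theorem box_lt {Q : ℕ} (hQ : 0 < Q) (s : ℝ) : ⌊(Q : ℝ) * Int.fract s⌋₊ < Q := by
  have h0 : (0 : ℝ) < Q := by exact_mod_cast hQ
  rw [Nat.floor_lt (mul_nonneg h0.le (Int.fract_nonneg s))]
  simpa using mul_lt_mul_of_pos_left (Int.fract_lt_one s) h0

theorem close {Q : ℕ} (hQ : 0 < Q) {s s' : ℝ}
    (h : ⌊(Q : ℝ) * Int.fract s⌋₊ = ⌊(Q : ℝ) * Int.fract s'⌋₊) :
    |s - s' - ((⌊s⌋ - ⌊s'⌋ : ℤ) : ℝ)| ≤ 1 / Q := by
  have h0 : (0 : ℝ) < Q := by exact_mod_cast hQ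
  have h1 := Nat.floor_le (mul_nonneg h0.le (Int.fract_nonneg s))
  have h2 := Nat.floor_le (mul_nonneg h0.le (Int.fract_nonneg s'))
  have h3 := Nat.lt_floor_add_one ((Q : ℝ) * Int.fract s)
  have h4 := Nat.lt_floor_add_one ((Q : ℝ) * Int.fract s')
  rw [h] at h1 h3
  have h5 : s - s' - ((⌊s⌋ - ⌊s'⌋ : ℤ) : ℝ) = Int.fract s - Int.fract s' := by
    rw [Int.cast_sub, ← Int.self_sub_floor, ← Int.self_sub_floor]
    ring
  rw [h5, le_div_iff₀ h0, ← abs_of_pos h0, ← abs_mul, abs_le]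
  constructor <;> nlinarith

end SIEG

theorem st_SIEG : St_SIEG := by
  intro U V A Q C hQ hc
  let S : (U → Fin (C + 1)) → ℕ → ℝ := fun x v => ∑ u ∈ U, A v u * SIEG.ex U C x u
  obtain ⟨x, x', hne, hF⟩ := Fintype.exists_ne_map_eq_of_card_lt
    (fun (x : U → Fin (C + 1)) (v : V) =>
      (⟨⌊(Q : ℝ) * Int.fract (S x v)⌋₊, SIEG.box_lt hQ _⟩ : Fin Q)) (by simpa using hc)
  refine ⟨fun u => SIEG.ex U C x u - SIEG.ex U C x' u,
    fun v => if v ∈ V then ⌊S x v⌋ - ⌊S x' v⌋ else 0, ?_, fun u => ?_, fun v hv => ?_,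
    fun v hv => if_neg hv⟩
  · obtain ⟨u, hu⟩ := Function.ne_iff.1 hne
    refine ⟨u.1, u.2, fun h => hu (Fin.ext ?_)⟩
    simp only [SIEG.ex, dif_pos u.2] at h
    change ((x u : ℕ) : ℤ) - ((x' u : ℕ) : ℤ) = 0 at h
    omega
  · have h1 := SIEG.ex_bd U C x u
    have h2 := SIEG.ex_bd U C x' u
    change |SIEG.ex U C x u - SIEG.ex U C x' u| ≤ C
    rw [abs_le]
    omega
  · have h1 : ∑ u ∈ U, A v u * ((SIEG.ex U C x u - SIEG.ex U C x' u : ℤ) : ℝ) =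
        S x v - S x' v := by
      simp only [S, Int.cast_sub, mul_sub, sum_sub_distrib]
    simp only [if_pos hv]
    rw [h1]
    exact SIEG.close hQ (congrArg Fin.val (congrFun hF ⟨v, hv⟩))

end Pool.Agent.Lib.ESC
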