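import Pool.Agent.Lib.ESC.Blue

/-! The small linear relation between the values of Euler's function along the rays. -/

open Finset Filter
open scoped Nat

set_option linter.unusedVariables false

noncomputable section

namespace Pool.Agent.Lib.ESC

namespace STAR

theorem wt_zero (β : ℕ → ℕ) (L v u : ℕ) (h : ∀ t, 1 ≤ t → t ≤ L → u * t ≠ v) :
    wt β L v u = 0 := by
  unfold wt
  apply Finset.sum_eq_zero
  intro t ht
  rw [Finset.mem_filter, Finset.mem_Icc] at ht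
  exact absurd ht.2 (h t ht.1.1 ht.1.2)

theorem wt_self (β : ℕ → ℕ) (L u t0 : ℕ) (hu : 0 < u) (h1 : 1 ≤ t0) (h2 : t0 ≤ L) :
    wt β L (u * t0) u = (φ t0 : ℝ) / (β u : ℝ) ^ t0 := by
  unfold wt
  have : (Icc 1 L).filter (fun t => u * t = u * t0) = {t0} := by
    ext t
    simp only [Finset.mem_filter, Finset.mem_Icc, Finset.mem_singleton]
    constructor
    · rintro ⟨_, h⟩
      exact Nat.eq_of_mul_eq_mul_left hu h
    · rintro rfl
      exact ⟨⟨h1, h2⟩, rfl⟩
  rw [this, Finset.sum_singleton]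

theorem abs_sum_le {s : Finset ℕ} {g : ℕ → ℝ} {B : ℝ} {D : ℕ} (hB : 0 ≤ B) (hc : s.card ≤ D)
    (h : ∀ i ∈ s, |g i| ≤ B) : |∑ i ∈ s, g i| ≤ D * B := by
  calc |∑ i ∈ s, g i| ≤ ∑ i ∈ s, |g i| := Finset.abs_sum_le_sum_abs _ _
    _ ≤ s.card • B := Finset.sum_le_card_nsmul _ _ _ h
    _ = (s.card : ℝ) * B := by rw [nsmul_eq_mul]
    _ ≤ D * B := by
      apply mul_le_mul_of_nonneg_right _ hB
      exact_mod_cast hc

end STAR

open STAR in
theorem st_STAR (hS : St_SIEG) (hE : St_EXP) : St_STAR := by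
  intro n0 a q r hR K D U hC N b β F hb hN hqD hβ hF
  have hD : 1000 ≤ D := hC.big
  have hD0 : D ≠ 0 := by omega
  have hq : 0 < q := hR.q_pos
  have hDN : 7 * D < N := by nlinarith
  have hK : 1 ≤ K := by
    rcases Nat.eq_zero_or_pos K with h | h
    · rw [h, pow_zero] at hN
      omega
    · exact h
  have hdv : ∀ u ∈ U, ∀ t, 1 ≤ t → t ≤ 3 * (27 * K) → u * t ∈ D.divisors := by
    intro u hu t h1 h2
    rw [Nat.mem_divisors]
    refine ⟨Dvd.dvd.trans ?_ (hC.dvd u hu t h1 h2), hD0⟩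
    exact ⟨t, by ring⟩
  have hUd : U ⊆ D.divisors := by
    intro u hu
    simpa using hdv u hu 1 le_rfl (by omega)
  have hupos : ∀ u ∈ U, 0 < u := fun u hu => Nat.pos_of_mem_divisors (hUd hu)
  have hcd : D.divisors.card ≤ D := Nat.card_divisors_le_self D
  have hcU : U.card ≤ D := (Finset.card_le_card hUd).trans hcd
  have hKD : 81 * K ≤ D := by
    obtain ⟨u, hu⟩ := hC.ne
    have h1 := Nat.divisor_le (hdv u hu (81 * K) (by omega) (by omega))
    have h2 := hupos u hu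
    nlinarith
  have hNpos : 0 < N := by omega
  have hN0 : (0 : ℝ) < N := by exact_mod_cast hNpos
  have hq0 : (0 : ℝ) < q := by exact_mod_cast hq
  have hβ0 : ∀ u ∈ U, (0 : ℝ) < β u := fun u hu => by
    exact_mod_cast (by have := hβ u hu; omega : 0 < β u)
  have hβK : ∀ u ∈ U, (N : ℝ) ≤ (β u : ℝ) ^ K := fun u hu => by
    exact_mod_cast hN.trans (Nat.pow_le_pow_left (hβ u hu) K)
  have hrle : ∀ n ∈ F, ∀ u ∈ U, ∀ i, i ≤ 81 * K → (r (n / u + i) : ℝ) ≤ 4 * q * N := by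
    intro n hn u hu i hi
    obtain ⟨_, h2, h3⟩ := hF n hn
    have h4 := hR.le (n / u + i) ((h3 u hu).1.trans (Nat.le_add_right _ _))
    have h5 : n / u ≤ n := Nat.div_le_self _ _
    have h6 : n / u + i + 2 ≤ 4 * N := by omega
    have h7 : r (n / u + i) ≤ 4 * q * N := by
      calc r (n / u + i) ≤ q * (n / u + i + 2) := h4
        _ ≤ q * (4 * N) := Nat.mul_le_mul_left _ h6
        _ = 4 * q * N := by ring
    exact_mod_cast h7
  have hφle : ∀ n ∈ F, ∀ v, (φ (n / v + 1) : ℝ) ≤ 3 * N := by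
    intro n hn v
    obtain ⟨_, h2, _⟩ := hF n hn
    have h5 : n / v ≤ n := Nat.div_le_self _ _
    have h6 := Nat.totient_le (n / v + 1)
    have h7 : φ (n / v + 1) ≤ 3 * N := by omega
    exact_mod_cast h7
  have hexp : ∀ (c : ℕ → ℝ), ∀ n ∈ F, ∀ L, L ≤ 81 * K → ∑ u ∈ U, c u * r (n / u) =
      q * ∑ v ∈ D.divisors, (∑ u ∈ U, wt β L v u * c u) * φ (n / v + 1) +
        ∑ u ∈ U, c u * r (n / u + L) / (β u : ℝ) ^ L := by
    intro c n hn L hL
    obtain ⟨h1, _, h3⟩ := hF n hn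
    refine hE n0 a q r hR (27 * K) D U hC β c n L h1 (by omega) ?_
    intro u hu
    refine ⟨by have := hβ u hu; omega, (h3 u hu).1, fun i _ hi => (h3 u hu).2 i (by omega)⟩
  set V := image₂ (fun u t => u * t) U (Icc 1 (27 * K)) with hV
  have hbox : (N ^ 2) ^ V.card < (N ^ 24 + 1) ^ U.card := by
    have h1 : (N ^ 2) ^ V.card ≤ (N ^ 2) ^ (12 * U.card) :=
      Nat.pow_le_pow_right (by positivity) hC.card
    have h2 : (N ^ 2) ^ (12 * U.card) = (N ^ 24) ^ U.card := by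
      rw [pow_mul, ← pow_mul N 2 12]
    have h3 : (N ^ 24) ^ U.card < (N ^ 24 + 1) ^ U.card :=
      Nat.pow_lt_pow_left (Nat.lt_succ_self _) (Finset.card_ne_zero.2 hC.ne)
    omega
  obtain ⟨c, g, ⟨u1, hu1, hc1⟩, hcle, hδ, hg0⟩ :=
    hS U V (wt β (27 * K)) (N ^ 2) (N ^ 24) (by positivity) hbox
  have hδ' : ∀ v, |∑ u ∈ U, wt β (27 * K) v u * c u - g v| ≤ 1 / (N : ℝ) ^ 2 := by
    intro v
    by_cases hv : v ∈ V
    · have := hδ v hv
      push_cast at this
      exact this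
    · have h1 : ∑ u ∈ U, wt β (27 * K) v u * c u = 0 := by
        apply Finset.sum_eq_zero
        intro u hu
        rw [wt_zero β _ v u, zero_mul]
        intro t h1 h2 h3
        exact hv (Finset.mem_image₂.2 ⟨u, hu, t, Finset.mem_Icc.2 ⟨h1, h2⟩, h3⟩)
      rw [h1, hg0 v hv]
      simp
  have hint : ∀ n ∈ F, ∑ u ∈ U, (c u : ℝ) * r (n / u) =
      q * ∑ v ∈ D.divisors, (g v : ℝ) * φ (n / v + 1) := by
    intro n hn
    have h1 := hexp (fun u => (c u : ℝ)) n hn (27 * K) (by omega)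
    have h2 : |∑ v ∈ D.divisors, (∑ u ∈ U, wt β (27 * K) v u * c u - g v) * φ (n / v + 1)| ≤
        D * (1 / (N : ℝ) ^ 2 * (3 * N)) := by
      apply abs_sum_le (by positivity) hcd
      intro v _
      rw [abs_mul, Nat.abs_cast]
      exact mul_le_mul (hδ' v) (hφle n hn v) (by positivity) (by positivity)
    have h3 : |∑ u ∈ U, (c u : ℝ) * r (n / u + 27 * K) / (β u : ℝ) ^ (27 * K)| ≤
        D * ((N : ℝ) ^ 24 * (4 * q * N) / (N : ℝ) ^ 27) := by
      apply abs_sum_le (by positivity) hcU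
      intro u hu
      have hb0 := hβ0 u hu
      rw [abs_div, abs_mul, Nat.abs_cast, abs_of_pos (pow_pos hb0 _)]
      have h4 : |(c u : ℝ)| ≤ (N : ℝ) ^ 24 := by exact_mod_cast hcle u
      have h5 : (N : ℝ) ^ 27 ≤ (β u : ℝ) ^ (27 * K) := by
        rw [mul_comm, pow_mul]
        exact pow_le_pow_left₀ hN0.le (hβK u hu) 27
      exact div_le_div₀ (by positivity)
        (mul_le_mul h4 (hrle n hn u hu _ (by omega)) (by positivity) (by positivity))
        (by positivity) h5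
    set I : ℤ := ∑ u ∈ U, c u * r (n / u) - q * ∑ v ∈ D.divisors, g v * φ (n / v + 1) with hI
    have h6 : (I : ℝ) = ∑ u ∈ U, (c u : ℝ) * r (n / u) -
        q * ∑ v ∈ D.divisors, (g v : ℝ) * φ (n / v + 1) := by
      rw [hI]
      push_cast
      rfl
    have h7 : (I : ℝ) =
        q * ∑ v ∈ D.divisors, (∑ u ∈ U, wt β (27 * K) v u * c u - g v) * φ (n / v + 1) +
          ∑ u ∈ U, (c u : ℝ) * r (n / u + 27 * K) / (β u : ℝ) ^ (27 * K) := by
      rw [h6, h1]
      simp only [sub_mul, Finset.sum_sub_distrib]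
      ring
    have h8 : |(I : ℝ)| < 1 := by
      have h9 : (7 : ℝ) * q * D < N := by exact_mod_cast hqD
      have h10 : (1 : ℝ) ≤ N := by exact_mod_cast (by omega : 1 ≤ N)
      have h11 : (N : ℝ) ^ 24 * (4 * q * N) / (N : ℝ) ^ 27 ≤ 4 * q / N := by
        rw [div_le_div_iff₀ (by positivity) hN0]
        have : (N : ℝ) ^ 26 ≤ (N : ℝ) ^ 27 := pow_le_pow_right₀ h10 (by norm_num)
        calc (N : ℝ) ^ 24 * (4 * q * N) * N = 4 * q * (N : ℝ) ^ 26 := by ring
          _ ≤ 4 * q * (N : ℝ) ^ 27 := by gcongr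
      have h12 : 1 / (N : ℝ) ^ 2 * (3 * N) = 3 / N := by field_simp
      rw [h12] at h2
      have h13 : (D : ℝ) * ((N : ℝ) ^ 24 * (4 * q * N) / (N : ℝ) ^ 27) ≤ D * (4 * q / N) := by
        gcongr
      rw [h7]
      refine (abs_add_le _ _).trans_lt ?_
      rw [abs_mul, Nat.abs_cast]
      refine (add_le_add (mul_le_mul_of_nonneg_left h2 hq0.le) (h3.trans h13)).trans_lt ?_
      calc (q : ℝ) * (D * (3 / N)) + D * (4 * q / N) = 7 * q * D / N := by ring
        _ < 1 := by rwa [div_lt_one hN0]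
    have h14 : I = 0 := by
      have : |I| < 1 := by exact_mod_cast h8
      exact Int.abs_lt_one_iff.1 this
    rw [h14] at h6
    push_cast at h6
    linarith
  obtain ⟨r0, hr0, hr1, hr2⟩ := Nat.exists_prime_lt_and_le_two_mul (27 * K) (by omega)
  set η : ℕ → ℝ := fun v => ∑ u ∈ U, wt β (r0 + K) v u * c u - g v with hη
  obtain ⟨v0, hv0, hmax⟩ := Finset.exists_max_image D.divisors (fun v => |η v| / v)
    ⟨1, Nat.one_mem_divisors.2 hD0⟩
  have hray : ∀ u ∈ U, ∀ u' ∈ U, ∀ t, 1 ≤ t → t < 2 * r0 → u' * t = u * r0 → t = r0 := by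
    intro u hu u' hu' t h1 h2 h3
    have h4 : r0 ∣ u' * t := ⟨u, by rw [h3, mul_comm]⟩
    rcases (Nat.Prime.dvd_mul hr0).1 h4 with h5 | ⟨k, rfl⟩
    · have := hC.smooth u' hu' r0 hr0 h5
      omega
    · have hk0 : k ≠ 0 := by
        rintro rfl
        omega
      have hk2 : k < 2 := by nlinarith [hr0.pos]
      have : k = 1 := by omega
      rw [this, mul_one]
  have hηu : ∀ u ∈ U, η (u * r0) = (φ r0 : ℝ) / (β u : ℝ) ^ r0 * c u := by
    intro u hu
    have h1 : u * r0 ∉ V := by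
      intro h
      obtain ⟨u', hu', t, ht, h2⟩ := Finset.mem_image₂.1 h
      rw [Finset.mem_Icc] at ht
      have := hray u hu u' hu' t ht.1 (by omega) h2
      omega
    simp only [hη]
    rw [hg0 _ h1, Finset.sum_eq_single u, wt_self β _ u r0 (hupos u hu) hr0.pos (by omega)]
    · simp
    · intro u' hu' hne
      rw [wt_zero β _ _ u', zero_mul]
      intro t h2 h3 h4
      have h5 := hray u hu u' hu' t h2 (by omega) h4
      rw [h5] at h4
      exact hne (Nat.eq_of_mul_eq_mul_right hr0.pos h4)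
    · intro h
      exact absurd hu h
  have hm0 : 0 ≤ |η v0| / v0 := by positivity
  have hcu : ∀ u ∈ U, |(c u : ℝ)| / (β u : ℝ) ^ r0 ≤ D * (|η v0| / v0) := by
    intro u hu
    have hb0 := hβ0 u hu
    have h1 := hdv u hu r0 hr0.pos (by omega)
    have h2 := hmax _ h1
    have h3 : (0 : ℝ) < (u * r0 : ℕ) := by exact_mod_cast Nat.pos_of_mem_divisors h1
    have h4 : ((u * r0 : ℕ) : ℝ) ≤ D := by exact_mod_cast Nat.divisor_le h1
    rw [div_le_iff₀ h3, hηu u hu, abs_mul, abs_div, Nat.abs_cast, abs_of_pos (pow_pos hb0 _)] at h2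
    have h5 : (1 : ℝ) ≤ φ r0 := by exact_mod_cast Nat.totient_pos.2 hr0.pos
    calc |(c u : ℝ)| / (β u : ℝ) ^ r0 = 1 / (β u : ℝ) ^ r0 * |(c u : ℝ)| := by ring
      _ ≤ (φ r0 : ℝ) / (β u : ℝ) ^ r0 * |(c u : ℝ)| := by gcongr
      _ ≤ |η v0| / v0 * (u * r0 : ℕ) := h2
      _ ≤ |η v0| / v0 * D := by gcongr
      _ = D * (|η v0| / v0) := by ring
  refine ⟨η, v0, hv0, ?_, hmax, ?_⟩
  · intro h0
    have h1 := hcu u1 hu1
    have hb0 := hβ0 u1 hu1
    have h2 : (0 : ℝ) < |(c u1 : ℝ)| / (β u1 : ℝ) ^ r0 :=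
      div_pos (abs_pos.2 (by exact_mod_cast hc1)) (pow_pos hb0 _)
    rw [h0] at h1
    simp only [abs_zero, zero_div, mul_zero] at h1
    linarith
  · intro n hn
    have h1 := hexp (fun u => (c u : ℝ)) n hn (r0 + K) (by omega)
    have h2 : (q : ℝ) * ∑ v ∈ D.divisors, η v * φ (n / v + 1) =
        -∑ u ∈ U, (c u : ℝ) * r (n / u + (r0 + K)) / (β u : ℝ) ^ (r0 + K) := by
      have h3 := hint n hn
      simp only [hη, sub_mul, Finset.sum_sub_distrib]
      linarith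
    have h4 : |∑ u ∈ U, (c u : ℝ) * r (n / u + (r0 + K)) / (β u : ℝ) ^ (r0 + K)| ≤
        D * (D * (|η v0| / v0) * (4 * q)) := by
      apply abs_sum_le (by positivity) hcU
      intro u hu
      have hb0 := hβ0 u hu
      rw [abs_div, abs_mul, Nat.abs_cast, abs_of_pos (pow_pos hb0 _), pow_add, ← div_mul_div_comm]
      refine mul_le_mul (hcu u hu) ?_ (by positivity) (by positivity)
      rw [div_le_iff₀ (pow_pos hb0 _)]
      calc (r (n / u + (r0 + K)) : ℝ) ≤ 4 * q * N := hrle n hn u hu _ (by omega)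
        _ ≤ 4 * q * (β u : ℝ) ^ K := by gcongr; exact hβK u hu
    rw [← abs_neg, ← h2, abs_mul, Nat.abs_cast] at h4
    have h5 : (q : ℝ) * |∑ v ∈ D.divisors, η v * φ (n / v + 1)| ≤
        q * (4 * (D : ℝ) ^ 2 * (|η v0| / v0)) := by
      calc _ ≤ _ := h4
        _ = _ := by ring
    exact le_of_mul_le_mul_left h5 hq0

end Pool.Agent.Lib.ESC
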