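import Pool.Agent.Lib.ESC.Blue

open Finset Filter
open scoped Nat

set_option linter.unusedVariables false

noncomputable section

namespace Pool.Agent.Lib.ESC

namespace TAIL

lemma hasSum_lin (M : ℕ) :
    HasSum (fun j : ℕ => ((j + (M + 1) : ℕ) : ℝ) / 2 ^ (j + 1)) ((M : ℝ) + 2) := by
  have h1 := (hasSum_coe_mul_geometric_of_norm_lt_one (𝕜 := ℝ) (r := 1 / 2)
    (by norm_num)).mul_left (1 / 2)
  have h2 := hasSum_geometric_two.mul_left (((M : ℝ) + 1) / 2)
  have h3 := h1.add h2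
  have e1 : (fun j : ℕ => ((j + (M + 1) : ℕ) : ℝ) / 2 ^ (j + 1)) =
      fun j : ℕ => 1 / 2 * ((j : ℝ) * (1 / 2) ^ j) + ((M : ℝ) + 1) / 2 * (1 / 2) ^ j := by
    funext j
    push_cast
    rw [one_div_pow, pow_succ]
    field_simp
  have e2 : (M : ℝ) + 2 = 1 / 2 * (1 / 2 / (1 - 1 / 2) ^ 2) + ((M : ℝ) + 1) / 2 * 2 := by
    ring
  rw [e1, e2]
  exact h3

end TAIL

open TAIL in
theorem st_TAIL : St_TAIL := by
  intro a n0 h1 h2 hS
  set P : ℕ → ℝ := fun M => ∏ i ∈ Icc 1 M, (a i : ℝ) with hP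
  have Ppos : ∀ M, 0 < P M := fun M =>
    prod_pos fun i hi => by exact_mod_cast h1 i (mem_Icc.1 hi).1
  have Psucc : ∀ M, P (M + 1) = P M * a (M + 1) := fun M =>
    prod_Icc_succ_top (Nat.le_add_left 1 M) _
  have Pgrow : ∀ M, n0 ≤ M → ∀ j, P M * 2 ^ (j + 1) ≤ P (j + (M + 1)) := by
    intro M hM j
    induction j with
    | zero =>
      rw [zero_add, zero_add, Psucc, pow_one]
      exact mul_le_mul_of_nonneg_left (by exact_mod_cast h2 _ (by omega)) (Ppos M).le
    | succ j ih =>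
      rw [show j + 1 + (M + 1) = j + (M + 1) + 1 by omega, Psucc, pow_succ, ← mul_assoc]
      exact mul_le_mul ih (by exact_mod_cast h2 _ (by omega)) (by norm_num) (Ppos _).le
  set t : ℕ → ℝ := fun n => (φ n : ℝ) / P n with ht
  have tnn : ∀ n, 0 ≤ t n := fun n => div_nonneg (Nat.cast_nonneg _) (Ppos n).le
  have tle : ∀ M, n0 ≤ M → ∀ j, P M * t (j + (M + 1)) ≤ ((j + (M + 1) : ℕ) : ℝ) / 2 ^ (j + 1) := by
    intro M hM j
    have hφ : (φ (j + (M + 1)) : ℝ) ≤ ((j + (M + 1) : ℕ) : ℝ) := by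
      exact_mod_cast Nat.totient_le _
    simp only [ht]
    rw [← mul_div_assoc, div_le_div_iff₀ (Ppos _) (by positivity)]
    calc P M * (φ (j + (M + 1)) : ℝ) * 2 ^ (j + 1)
        = (φ (j + (M + 1)) : ℝ) * (P M * 2 ^ (j + 1)) := by ring
      _ ≤ _ := mul_le_mul hφ (Pgrow M hM j) (by have := Ppos M; positivity) (Nat.cast_nonneg _)
  have hs0 : Summable fun j => P n0 * t (j + (n0 + 1)) :=
    Summable.of_nonneg_of_le (fun j => mul_nonneg (Ppos _).le (tnn _)) (tle n0 le_rfl)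
      (hasSum_lin n0).summable
  have hs : Summable t :=
    (summable_nat_add_iff (n0 + 1)).1 ((summable_mul_left_iff (Ppos n0).ne').1 hs0)
  have hsM : ∀ M, Summable fun j => t (j + M) := fun M => (summable_nat_add_iff M).2 hs
  set T : ℕ → ℝ := fun M => P M * ∑' j, t (j + (M + 1)) with hT
  have Tnn : ∀ M, 0 ≤ T M := fun M => mul_nonneg (Ppos M).le (tsum_nonneg fun j => tnn _)
  have Trec : ∀ M, T M * a (M + 1) = φ (M + 1) + T (M + 1) := by
    intro M
    have e := (hsM (M + 1)).tsum_eq_zero_add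
    have e' : (fun j => t (j + 1 + (M + 1))) = fun j => t (j + (M + 1 + 1)) := by
      funext j
      rw [show j + 1 + (M + 1) = j + (M + 1 + 1) by omega]
    rw [e', zero_add] at e
    simp only [hT]
    rw [e, mul_right_comm, ← Psucc, mul_add]
    simp only [ht]
    rw [mul_div_cancel₀ _ (Ppos _).ne']
  have Tle : ∀ M, n0 ≤ M → T M ≤ M + 2 := by
    intro M hM
    simp only [hT]
    rw [← tsum_mul_left, ← (hasSum_lin M).tsum_eq]
    exact ((hsM (M + 1)).mul_left _).tsum_le_tsum (tle M hM) (hasSum_lin M).summable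
  have Tpos : ∀ M, 0 < T M := by
    intro M
    have h3 : (0 : ℝ) < φ (M + 1) := by exact_mod_cast Nat.totient_pos.2 (Nat.succ_pos M)
    have h4 := Tnn (M + 1)
    have h5 : 0 < T M * a (M + 1) := by rw [Trec]; linarith
    exact pos_of_mul_pos_left h5 (Nat.cast_nonneg _)
  have T0 : T 0 = ∑' n, t n := by
    rw [hs.tsum_eq_zero_add]
    simp [hT, ht, hP]
  obtain ⟨x, hx⟩ : ∃ x : ℚ, (x : ℝ) = ∑' n, t n := by
    simpa [Irrational] using hS
  have hint : ∀ M, ∃ z : ℤ, (z : ℝ) = x.den * T M := by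
    intro M
    induction M with
    | zero =>
      refine ⟨x.num, ?_⟩
      rw [T0, ← hx]
      exact_mod_cast (Rat.den_mul_eq_num x).symm
    | succ M ih =>
      obtain ⟨z, hz⟩ := ih
      refine ⟨z * a (M + 1) - x.den * φ (M + 1), ?_⟩
      push_cast
      rw [hz, mul_assoc, Trec]
      ring
  choose z hz using hint
  have qpos : (0 : ℝ) < x.den := by exact_mod_cast x.den_pos
  have hr : ∀ M, (((z M).toNat : ℕ) : ℝ) = x.den * T M := by
    intro M
    have : (0 : ℝ) ≤ z M := by rw [hz]; exact mul_nonneg qpos.le (Tnn M)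
    rw [← hz]
    exact_mod_cast Int.toNat_of_nonneg (by exact_mod_cast this)
  refine ⟨x.den, fun M => (z M).toNat, x.den_pos, fun M _ => ?_, fun M _ => ?_, fun M hM => ?_⟩
  · have : (((z M).toNat : ℕ) : ℝ) * a (M + 1) =
        x.den * φ (M + 1) + (((z (M + 1)).toNat : ℕ) : ℝ) := by
      rw [hr, hr, mul_assoc, Trec, mul_add]
    exact_mod_cast this
  · have : (0 : ℝ) < (((z M).toNat : ℕ) : ℝ) := by rw [hr]; exact mul_pos qpos (Tpos M)
    exact_mod_cast this
  · have : (((z M).toNat : ℕ) : ℝ) ≤ x.den * (M + 2) := by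
      rw [hr]; exact mul_le_mul_of_nonneg_left (Tle M hM) qpos.le
    exact_mod_cast this

end Pool.Agent.Lib.ESC
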