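import Pool.Agent.Lib.ESC.Blue

/-! The average of the large divisor tails along a progression. -/

open Finset

namespace Pool.Agent.Lib.ESC

namespace TAV

theorem cnt (β M d : ℕ) :
    (((range M).filter fun k => d ∣ β * k + 1).card : ℝ) ≤ (M : ℝ) / d + 1 := by
  have h1 : ((range M).filter fun k => d ∣ β * k + 1).card ≤ (range (M / d + 1)).card := by
    refine card_le_card_of_injOn (fun k => k / d) (fun k hk => ?_) fun k hk k' hk' h => ?_
    · have := mem_range.1 (mem_filter.1 (mem_coe.1 hk)).1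
      exact mem_coe.2 (mem_range.2 (Nat.lt_succ_of_le (Nat.div_le_div_right this.le)))
    · have h2 := (mem_filter.1 (mem_coe.1 hk)).2
      have h3 := (mem_filter.1 (mem_coe.1 hk')).2
      have hc : Nat.gcd d β = 1 :=
        Nat.Coprime.coprime_dvd_left h2 (by simp [Nat.coprime_mul_left_add_left])
      have h4 : β * k + 1 ≡ β * k' + 1 [MOD d] :=
        ((Nat.modEq_zero_iff_dvd).2 h2).trans ((Nat.modEq_zero_iff_dvd).2 h3).symm
      have h5 : k ≡ k' [MOD d] :=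
        Nat.ModEq.cancel_left_of_coprime hc (Nat.ModEq.add_right_cancel' 1 h4)
      have h6 : k / d = k' / d := h
      rw [← Nat.div_add_mod k d, ← Nat.div_add_mod k' d, h6, show k % d = k' % d from h5]
  rw [card_range] at h1
  have h2 : (((range M).filter fun k => d ∣ β * k + 1).card : ℝ) ≤ ((M / d + 1 : ℕ) : ℝ) :=
    Nat.cast_le.2 h1
  rw [Nat.cast_add, Nat.cast_one] at h2
  linarith [Nat.cast_div_le (α := ℝ) (m := M) (n := d)]

theorem harm (X : ℕ) : ∑ d ∈ Ioc 0 X, (1 : ℝ) / d ≤ 2 * √X := by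
  induction X with
  | zero => simp
  | succ n ih =>
    rw [sum_Ioc_succ_top (Nat.zero_le n)]
    have hs := Real.sq_sqrt (Nat.cast_nonneg (α := ℝ) n)
    have ht := Real.sq_sqrt (Nat.cast_nonneg (α := ℝ) (n + 1))
    have h0 := Real.sqrt_nonneg (n : ℝ)
    have h1 : √(n : ℝ) ≤ √((n + 1 : ℕ) : ℝ) := Real.sqrt_le_sqrt (by simp)
    have h2 : 1 ≤ √((n + 1 : ℕ) : ℝ) := Real.one_le_sqrt.2 (by simp)
    have h3 : (1 : ℝ) / ((n + 1 : ℕ) : ℝ) ≤ 2 * (√((n + 1 : ℕ) : ℝ) - √(n : ℝ)) := by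
      rw [div_le_iff₀ (by positivity)]
      have h4 : ((n + 1 : ℕ) : ℝ) = n + 1 := by simp
      set s := √(n : ℝ)
      set t := √((n + 1 : ℕ) : ℝ)
      have h5 : (t - s) * (t + s) = 1 := by nlinarith
      have h6 : t + s ≤ 2 * ((n + 1 : ℕ) : ℝ) := by nlinarith
      nlinarith [mul_le_mul_of_nonneg_left h6 (sub_nonneg.2 h1)]
    linarith

theorem sq_le {y : ℕ} (hy : 0 < y) (X : ℕ) : ∑ d ∈ Ioc y X, ((d : ℝ) ^ 2)⁻¹ ≤ (y : ℝ)⁻¹ := by
  rcases le_total y X with h | h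
  · have := sum_Ioc_inv_sq_le_sub (α := ℝ) hy.ne' h
    have h2 : (0 : ℝ) ≤ (X : ℝ)⁻¹ := by positivity
    linarith
  · rw [Ioc_eq_empty (not_lt.2 h), sum_empty]
    positivity

end TAV

theorem st_TAV : St_TAV := by
  intro β y M hy
  have h1 : ∀ k ∈ range M, tl y (β * k + 1) ≤
      ∑ d ∈ Ioc y (β * M + 1), if d ∣ β * k + 1 then (1 : ℝ) / d else 0 := fun k hk => by
    rw [← sum_filter, tl]
    refine sum_le_sum_of_subset_of_nonneg (fun d hd => ?_) fun d _ _ => by positivity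
    obtain ⟨h2, h3⟩ := mem_filter.1 hd
    have h4 := Nat.dvd_of_mem_divisors h2
    refine mem_filter.2 ⟨mem_Ioc.2 ⟨h3, (Nat.le_of_dvd (Nat.succ_pos _) h4).trans ?_⟩, h4⟩
    exact Nat.succ_le_succ (Nat.mul_le_mul_left β (mem_range.1 hk).le)
  refine (sum_le_sum h1).trans ?_
  rw [sum_comm]
  have h2 : ∀ d ∈ Ioc y (β * M + 1), (∑ k ∈ range M, if d ∣ β * k + 1 then (1 : ℝ) / d else 0) ≤
      M * ((d : ℝ) ^ 2)⁻¹ + 1 / d := fun d hd => by
    have hd0 : (0 : ℝ) < d := Nat.cast_pos.2 (hy.trans (mem_Ioc.1 hd).1)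
    rw [← sum_filter, sum_const, nsmul_eq_mul]
    refine (mul_le_mul_of_nonneg_right (TAV.cnt β M d) (by positivity)).trans (le_of_eq ?_)
    field_simp
  refine (sum_le_sum h2).trans ?_
  rw [sum_add_distrib, ← mul_sum]
  have h3 := mul_le_mul_of_nonneg_left (TAV.sq_le hy (β * M + 1)) (Nat.cast_nonneg (α := ℝ) M)
  have h4 : ∑ d ∈ Ioc y (β * M + 1), (1 : ℝ) / d ≤ ∑ d ∈ Ioc 0 (β * M + 1), (1 : ℝ) / d :=
    sum_le_sum_of_subset_of_nonneg (Ioc_subset_Ioc_left (Nat.zero_le y)) fun d _ _ => by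
      positivity
  have h5 := TAV.harm (β * M + 1)
  rw [div_eq_mul_inv (M : ℝ)]
  push_cast at h5
  linarith

end Pool.Agent.Lib.ESC
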