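import Mathlib

/-! Irrationality of Cantor series of Euler's function: definitions and statements of the steps. -/

open Finset Filter
open scoped Nat ArithmeticFunction.Moebius

set_option linter.unusedVariables false

noncomputable section

namespace Pool.Agent.Lib.ESC

/-- The ratio `φ m / m`. -/
def f (m : ℕ) : ℝ := (φ m : ℝ) / m

/-- The sum of the reciprocals of the large divisors. -/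
def tl (y m : ℕ) : ℝ := ∑ d ∈ m.divisors with y < d, (1 : ℝ) / d

/-- The truncated mean value of `f` on a reduced residue class modulo `β`. -/
def W (y β : ℕ) : ℝ := ∑ d ∈ Icc 1 y with d.Coprime β, (μ d : ℝ) / (d : ℝ) ^ 2

/-- The recursion satisfied by the normalised tails of a rational series. -/
structure Rec (n0 : ℕ) (a : ℕ → ℕ) (q : ℕ) (r : ℕ → ℕ) : Prop where
  q_pos : 0 < q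
  eq : ∀ M, n0 ≤ M → r M * a (M + 1) = q * φ (M + 1) + r (M + 1)
  pos : ∀ M, n0 ≤ M → 0 < r M
  le : ∀ M, n0 ≤ M → r M ≤ q * (M + 2)

/-- A set of smooth numbers that expands little under multiplication by `1, …, Y`. -/
structure Comb (Y D : ℕ) (U : Finset ℕ) : Prop where
  ne : U.Nonempty
  dvd : ∀ u ∈ U, ∀ t, 1 ≤ t → t ≤ 3 * Y → u * t ^ 2 ∣ D
  smooth : ∀ u ∈ U, ∀ r, r.Prime → r ∣ u → r ≤ Y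
  card : (image₂ (fun u t => u * t) U (Icc 1 Y)).card ≤ 12 * U.card
  big : 1000 ≤ D

/-- The weight of the window `u` on the ray `v`. -/
def wt (β : ℕ → ℕ) (L v u : ℕ) : ℝ := ∑ t ∈ Icc 1 L with u * t = v, (φ t : ℝ) / (β u : ℝ) ^ t

def St_TAIL : Prop := ∀ (a : ℕ → ℕ) (n0 : ℕ), (∀ n, 1 ≤ n → 0 < a n) → (∀ n, n0 ≤ n → 2 ≤ a n) →
  ¬ Irrational (∑' n : ℕ, (φ n : ℝ) / ∏ i ∈ Icc 1 n, (a i : ℝ)) →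
    ∃ (q : ℕ) (r : ℕ → ℕ), Rec n0 a q r

def St_MULT : Prop := ∀ (P : Finset ℕ) (h : ℕ), (∀ q ∈ P, q.Prime) → P.card ≤ 2 ^ h →
  ∃ A B : Finset ℕ, A.Nonempty ∧ (∀ l ∈ A, l ∣ (∏ q ∈ P, q) ^ h) ∧
    (∀ l ∈ A, l ∈ B ∧ ∀ q ∈ P, l * q ∈ B) ∧ B.card ≤ 6 * A.card

def St_COMB : Prop := ∀ Y : ℕ, 27 ≤ Y → ∃ (D : ℕ) (U : Finset ℕ), Comb Y D U ∧ D ≤ Y ^ (20 * Y)

def St_SIEG : Prop := ∀ (U V : Finset ℕ) (A : ℕ → ℕ → ℝ) (Q C : ℕ), 0 < Q →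
  Q ^ V.card < (C + 1) ^ U.card → ∃ c g : ℕ → ℤ, (∃ u ∈ U, c u ≠ 0) ∧ (∀ u, |c u| ≤ C) ∧
    (∀ v ∈ V, |∑ u ∈ U, A v u * c u - g v| ≤ 1 / Q) ∧ ∀ v, v ∉ V → g v = 0

def St_EXP : Prop := ∀ (n0 : ℕ) (a : ℕ → ℕ) (q : ℕ) (r : ℕ → ℕ), Rec n0 a q r →
  ∀ (Y D : ℕ) (U : Finset ℕ), Comb Y D U → ∀ (β : ℕ → ℕ) (c : ℕ → ℝ) (n L : ℕ), D ∣ n →
    L ≤ 3 * Y → (∀ u ∈ U, 0 < β u ∧ n0 ≤ n / u ∧ ∀ i, 1 ≤ i → i ≤ L → a (n / u + i) = β u) →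
    ∑ u ∈ U, c u * r (n / u) =
      q * ∑ v ∈ D.divisors, (∑ u ∈ U, wt β L v u * c u) * φ (n / v + 1) +
        ∑ u ∈ U, c u * r (n / u + L) / (β u : ℝ) ^ L

def St_STAR : Prop := ∀ (n0 : ℕ) (a : ℕ → ℕ) (q : ℕ) (r : ℕ → ℕ), Rec n0 a q r →
  ∀ (K D : ℕ) (U : Finset ℕ), Comb (27 * K) D U → ∀ (N b : ℕ) (β : ℕ → ℕ) (F : Set ℕ),
    2 ≤ b → N ≤ b ^ K → 7 * q * D < N → (∀ u ∈ U, b ≤ β u) →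
    (∀ n ∈ F, D ∣ n ∧ n ≤ 2 * N ∧ ∀ u ∈ U, n0 ≤ n / u ∧
      ∀ i, i ≤ 81 * K → a (n / u + i) = β u) →
    ∃ (η : ℕ → ℝ) (v0 : ℕ), v0 ∈ D.divisors ∧ η v0 ≠ 0 ∧
      (∀ v ∈ D.divisors, |η v| / v ≤ |η v0| / v0) ∧
      ∀ n ∈ F, |∑ v ∈ D.divisors, η v * φ (n / v + 1)| ≤ 4 * (D : ℝ) ^ 2 * (|η v0| / v0)

def St_AP : Prop := (∀ y β : ℕ, 0 < y → 1 / 4 ≤ W y β) ∧ ∀ α β y J : ℕ, 0 < α → α.Coprime β →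
  |∑ j ∈ range J, f (α + β * j) - J * W y β| ≤ y + ∑ j ∈ range J, tl y (α + β * j)

def St_TAV : Prop := ∀ β y M : ℕ, 0 < y →
  ∑ k ∈ range M, tl y (β * k + 1) ≤ (M : ℝ) / y + 2 * √(β * M + 1)

def St_AVG : Prop := ∀ (D p k1 v0 : ℕ) (η : ℕ → ℝ), 1000 ≤ D → p.Prime → D < p → p ≤ 2 * D →
  D ^ 14 ≤ k1 → v0 ∈ D.divisors → η v0 ≠ 0 → (∀ v ∈ D.divisors, |η v| / v ≤ |η v0| / v0) →
  (∀ k ∈ Ico k1 (k1 + p ^ 2 * D ^ 8),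
    |∑ v ∈ D.divisors, η v * φ (D / v * k + 1)| ≤ 4 * (D : ℝ) ^ 2 * (|η v0| / v0)) →
  ∑ v ∈ D.divisors, ∑ k ∈ Ico k1 (k1 + p ^ 2 * D ^ 8), tl (D ^ 5) (D / v * k + 1) ≤
    6 * (p : ℝ) ^ 2 * (D : ℝ) ^ 4 → False

def St_SEL : Prop := ∀ (a : ℕ → ℕ) (D p N : ℕ), Monotone a → 1000 ≤ D → 0 < p → p ≤ 2 * D →
  a (3 * N) * D ^ 14 ≤ N → D ^ 30 ≤ N → ∃ k1, D ^ 14 ≤ k1 ∧ N ≤ 2 * D * k1 ∧
    D * (k1 + p ^ 2 * D ^ 8) ≤ 2 * N ∧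
    (∀ u ∈ D.divisors, a (D / u * k1) = a (D / u * (k1 + 2 * (p ^ 2 * D ^ 8)))) ∧
    ∑ v ∈ D.divisors, ∑ k ∈ Ico k1 (k1 + p ^ 2 * D ^ 8), tl (D ^ 5) (D / v * k + 1) ≤
      6 * (p : ℝ) ^ 2 * (D : ℝ) ^ 4

def St_CORE : Prop := ∀ (n0 : ℕ) (a : ℕ → ℕ) (q : ℕ) (r : ℕ → ℕ), Monotone a → Rec n0 a q r →
  ∀ (K D : ℕ) (U : Finset ℕ), Comb (27 * K) D U → ∀ N b : ℕ, 2 ≤ b → N ≤ b ^ K →
    (∀ m, N ≤ D ^ 2 * m → b ≤ a m ∧ n0 ≤ m) → a (3 * N) * D ^ 14 ≤ N →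
    D ^ 30 * q ≤ N → False

def St_LIN : Prop := ∀ (n0 : ℕ) (a : ℕ → ℕ) (q : ℕ) (r : ℕ → ℕ) (E : ℕ), Monotone a →
  Rec n0 a q r → (∀ᶠ N in atTop, N < a (3 * N) * E) → False

def St_MONO : Prop := ∀ (n0 : ℕ) (a : ℕ → ℕ) (q : ℕ) (r : ℕ → ℕ), Monotone a → Rec n0 a q r →
  (∀ᶠ n : ℕ in atTop, Real.log n ^ 100000 ≤ a n) → False

def St_MAIN : Prop := ∀ a : ℕ → ℕ, (∀ n, 1 ≤ n → 0 < a n) →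
  (∀ᶠ n : ℕ in atTop, a n ≤ a (n + 1) ∧ Real.log n ^ 100000 ≤ a n) →
    Irrational (∑' n : ℕ, (φ n : ℝ) / ∏ i ∈ Icc 1 n, (a i : ℝ))

end Pool.Agent.Lib.ESC
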